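import Pool.Agent.MP_7f417e_an.DR_8

/-!
# MP_7f417e_an, row [DR-10]: uniform frequencies
-/

open scoped Manifold ContDiff ENNReal Topology
open Filter Set

namespace DR

theorem sh_iter (j : ℕ) (c : Seq) (t : ℤ) : (sh^[j] c) t = c (t + j) := by
  induction j generalizing c with
  | zero => simp
  | succ j ih =>
    rw [Function.iterate_succ_apply, ih]
    simp only [sh]
    congr 1
    push_cast
    ring

/-- a continuous function depends, up to `δ`, on a finite window -/
theorem exists_window (ψ : Seq → ℝ) (hψ : Continuous ψ) (δ : ℝ) (hδ : 0 < δ) :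
    ∃ m : ℕ, ∀ c c' : Seq, (∀ t : ℤ, |t| ≤ m → c t = c' t) → |ψ c - ψ c'| ≤ δ := by
  have hD : IsClosed {p : Seq × Seq | δ ≤ |ψ p.1 - ψ p.2|} :=
    isClosed_le continuous_const ((hψ.comp continuous_fst).sub (hψ.comp continuous_snd)).abs
  have hV : ∀ m : ℕ, IsOpen {p : Seq × Seq | ∃ t : ℤ, |t| ≤ m ∧ p.1 t ≠ p.2 t} := by
    intro m
    have h1 : {p : Seq × Seq | ∃ t : ℤ, |t| ≤ m ∧ p.1 t ≠ p.2 t} =
        ⋃ t : ℤ, ⋃ _ : |t| ≤ (m : ℤ), {p : Seq × Seq | p.1 t ≠ p.2 t} := by
      ext p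
      simp
    rw [h1]
    refine isOpen_iUnion fun t => isOpen_iUnion fun _ => ?_
    exact (isOpen_discrete {q : Bool × Bool | q.1 ≠ q.2}).preimage
      (f := fun p : Seq × Seq => (p.1 t, p.2 t))
      (((continuous_apply t).comp continuous_fst).prodMk ((continuous_apply t).comp continuous_snd))
  have hdir : Directed (· ⊆ ·) (fun m : ℕ => {p : Seq × Seq | ∃ t : ℤ, |t| ≤ m ∧ p.1 t ≠ p.2 t}) := by
    intro a b
    refine ⟨max a b, ?_, ?_⟩
    · rintro p ⟨t, ht, hp⟩
      exact ⟨t, ht.trans (by exact_mod_cast le_max_left a b), hp⟩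
    · rintro p ⟨t, ht, hp⟩
      exact ⟨t, ht.trans (by exact_mod_cast le_max_right a b), hp⟩
  obtain ⟨m, hm⟩ := hD.isCompact.elim_directed_cover _ hV (by
    rintro ⟨c, c'⟩ hp
    have hne : c ≠ c' := by
      rintro rfl
      simp only [mem_ofPred_eq, sub_self, abs_zero] at hp
      linarith
    obtain ⟨t, ht⟩ := Function.ne_iff.mp hne
    rw [mem_iUnion]
    exact ⟨t.natAbs, t, by simp, ht⟩) hdir
  refine ⟨m, fun c c' h => ?_⟩
  by_contra hcon
  push Not at hcon
  obtain ⟨t, ht, hne⟩ := hm (show (c, c') ∈ {p : Seq × Seq | δ ≤ |ψ p.1 - ψ p.2|} from hcon.le)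
  exact hne (h t ht)

theorem exists_bound (ψ : Seq → ℝ) (hψ : Continuous ψ) :
    ∃ B : ℝ, 0 < B ∧ ∀ c, |ψ c| ≤ B := by
  obtain ⟨B, hB⟩ := isCompact_univ.exists_bound_of_continuousOn (f := ψ) hψ.continuousOn
  refine ⟨max B 1, lt_of_lt_of_le one_pos (le_max_right _ _), fun c => ?_⟩
  exact (hB c (mem_univ c)).trans (le_max_left _ _)

/-- extension of a word to a two-sided sequence -/
def ext (w : List Bool) : Seq := fun i => w.getD i.toNat false

/-- the sum of `ψ` along a word -/
noncomputable def wsum (ψ : Seq → ℝ) (w : List Bool) : ℝ :=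
  ∑ j ∈ Finset.range w.length, ψ (sh^[j] (ext w))

theorem block_length (c : Seq) (a : ℤ) (n : ℕ) : (block c a n).length = n := by
  simp [block]

theorem block_add (c : Seq) (a : ℤ) (n m : ℕ) :
    block c a (n + m) = block c a n ++ block c (a + n) m := by
  simp only [block]
  rw [List.ofFn_add]
  congr 1
  · congr 1
    funext i
    simp only [Fin.val_natAdd, Nat.cast_add]
    congr 1
    ring

theorem ext_of_block (c : Seq) (a : ℤ) (n : ℕ) (i : ℕ) (hi : i < n) :
    ext (block c a n) i = c (a + i) := by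
  simp [ext, block, hi]

/-- the sum over one block -/
theorem one_block (ψ : Seq → ℝ) (δ B : ℝ) (hδ : 0 < δ) (hB : ∀ c, |ψ c| ≤ B) (m : ℕ)
    (hm : ∀ c c' : Seq, (∀ t : ℤ, |t| ≤ m → c t = c' t) → |ψ c - ψ c'| ≤ δ)
    (c : Seq) (p n : ℕ) :
    |(∑ j ∈ Finset.range n, ψ (sh^[p + j] c)) - wsum ψ (block c p n)| ≤ n * δ + 4 * m * B := by
  have hB0 : 0 ≤ B := (abs_nonneg _).trans (hB c)
  unfold wsum
  rw [block_length, ← Finset.sum_sub_distrib]
  refine (Finset.abs_sum_le_sum_abs _ _).trans ?_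
  have h1 : ∀ j ∈ Finset.range n, |ψ (sh^[p + j] c) - ψ (sh^[j] (ext (block c p n)))| ≤
      δ + (if m ≤ j ∧ j + m < n then 0 else 2 * B) := by
    intro j hj
    split_ifs with h
    · rw [add_zero]
      apply hm
      intro t ht
      rw [sh_iter, sh_iter]
      rw [abs_le] at ht
      obtain ⟨i, hi⟩ : ∃ i : ℕ, t + j = i := ⟨(t + j).toNat, by omega⟩
      have hin : i < n := by omega
      rw [hi, ext_of_block c p n i hin]
      congr 1
      push_cast
      omega
    · have h2 := hB (sh^[p + j] c)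
      have h3 := hB (sh^[j] (ext (block c p n)))
      have h4 := abs_sub (ψ (sh^[p + j] c)) (ψ (sh^[j] (ext (block c p n))))
      linarith
  refine (Finset.sum_le_sum h1).trans ?_
  rw [Finset.sum_add_distrib, Finset.sum_const, Finset.card_range, nsmul_eq_mul]
  have h2 : ∑ j ∈ Finset.range n, (if m ≤ j ∧ j + m < n then (0 : ℝ) else 2 * B) ≤ 4 * m * B := by
    rw [Finset.sum_ite, Finset.sum_const_zero, zero_add, Finset.sum_const, nsmul_eq_mul]
    have h3 : ((Finset.range n).filter (fun j => ¬ (m ≤ j ∧ j + m < n))).card ≤ 2 * m := by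
      have h4 : (Finset.range n).filter (fun j => ¬ (m ≤ j ∧ j + m < n)) ⊆
          Finset.range m ∪ Finset.Ico (n - m) n := by
        intro j hj
        rw [Finset.mem_filter, Finset.mem_range] at hj
        rw [Finset.mem_union, Finset.mem_range, Finset.mem_Ico]
        omega
      refine (Finset.card_le_card h4).trans ((Finset.card_union_le _ _).trans ?_)
      rw [Finset.card_range, Nat.card_Ico]
      omega
    have h5 : (((Finset.range n).filter (fun j => ¬ (m ≤ j ∧ j + m < n))).card : ℝ) ≤ 2 * m := by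
      exact_mod_cast h3
    nlinarith
  linarith

/-- the sum over a concatenation of blocks -/
theorem list_blocks (ψ : Seq → ℝ) (δ B : ℝ) (hδ : 0 < δ) (hB : ∀ c, |ψ c| ≤ B) (m : ℕ)
    (hm : ∀ c c' : Seq, (∀ t : ℤ, |t| ≤ m → c t = c' t) → |ψ c - ψ c'| ≤ δ)
    (c : Seq) (n : ℕ) (l : List (List Bool)) :
    ∀ p : ℕ, (∀ v ∈ l, v.length = n) → block c p (l.length * n) = l.flatten →
      |(∑ j ∈ Finset.range (l.length * n), ψ (sh^[p + j] c)) - (l.map (wsum ψ)).sum| ≤
        l.length * (n * δ + 4 * m * B) := by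
  induction l with
  | nil =>
    intro p _ _
    simp
  | cons w l ih =>
    intro p hl hblock
    have hw : w.length = n := hl w List.mem_cons_self
    have e1 : (w :: l).length * n = n + l.length * n := by
      rw [List.length_cons]; ring
    rw [e1, block_add, List.flatten_cons] at hblock
    have h1 := List.append_inj hblock (by rw [block_length, hw])
    have h2 := ih (p + n) (fun v hv => hl v (List.mem_cons_of_mem _ hv)) (by
      have := h1.2
      push_cast
      exact this)
    have h3 := one_block ψ δ B hδ hB m hm c p n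
    rw [h1.1] at h3
    rw [e1, Finset.sum_range_add, List.map_cons, List.sum_cons]
    have e2 : ∑ x ∈ Finset.range (l.length * n), ψ (sh^[p + (n + x)] c) =
        ∑ x ∈ Finset.range (l.length * n), ψ (sh^[p + n + x] c) := by
      refine Finset.sum_congr rfl fun x _ => ?_
      rw [add_assoc]
    rw [e2]
    rw [abs_le] at h2 h3 ⊢
    rw [List.length_cons]
    push_cast
    constructor <;> nlinarith [h2.1, h2.2, h3.1, h3.2]

/-- the sum over a block of level `k + 1` -/
theorem big_block (ψ : Seq → ℝ) (δ B : ℝ) (hδ : 0 < δ) (hB : ∀ c, |ψ c| ≤ B) (m : ℕ)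
    (hm : ∀ c c' : Seq, (∀ t : ℤ, |t| ≤ m → c t = c' t) → |ψ c - ψ c'| ≤ δ)
    (c : Seq) (k : ℕ) (p : ℕ) (hp : block c p (len (k + 1)) ∈ words (k + 1)) :
    |(∑ j ∈ Finset.range (len (k + 1)), ψ (sh^[p + j] c)) - ∑ w ∈ words k, wsum ψ w| ≤
        (words k).card * (len k * δ + 4 * m * B) := by
  classical
  obtain ⟨l, hnd, hmem, hfl⟩ := (mem_words_succ k _).mp hp
  have hfin : l.toFinset = words k := by
    ext v
    rw [List.mem_toFinset, hmem]
  have hcard : l.length = (words k).card := by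
    rw [← hfin, List.toFinset_card_of_nodup hnd]
  have hlen : len (k + 1) = l.length * len k := by
    rw [hcard, mul_comm]
    rfl
  have h1 := list_blocks ψ δ B hδ hB m hm c (len k) l p
    (fun v hv => length_of_mem_words k v ((hmem v).mp hv)) (by rw [← hlen, hfl])
  rw [← hlen] at h1
  rw [← hfin, List.sum_toFinset _ hnd, hfin, ← hcard]
  exact h1

/-- many blocks of level `k + 1` -/
theorem many_blocks (ψ : Seq → ℝ) (δ B : ℝ) (hδ : 0 < δ) (hB : ∀ c, |ψ c| ≤ B) (m : ℕ)
    (hm : ∀ c c' : Seq, (∀ t : ℤ, |t| ≤ m → c t = c' t) → |ψ c - ψ c'| ≤ δ)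
    (c : Seq) (k : ℕ) (o : ℕ) (hc : IsCut (k + 1) o c) (q : ℕ) :
    |(∑ j ∈ Finset.range (q * len (k + 1)), ψ (sh^[o + j] c)) - q * ∑ w ∈ words k, wsum ψ w| ≤
        q * ((words k).card * (len k * δ + 4 * m * B)) := by
  induction q with
  | zero => simp
  | succ q ih =>
    have h1 := big_block ψ δ B hδ hB m hm c k (o + q * len (k + 1)) (by
      have := hc q
      push_cast
      exact this)
    have e1 : (q + 1) * len (k + 1) = q * len (k + 1) + len (k + 1) := by ring
    rw [e1, Finset.sum_range_add]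
    have e2 : ∑ x ∈ Finset.range (len (k + 1)), ψ (sh^[o + (q * len (k + 1) + x)] c) =
        ∑ x ∈ Finset.range (len (k + 1)), ψ (sh^[o + q * len (k + 1) + x] c) := by
      refine Finset.sum_congr rfl fun x _ => ?_
      rw [add_assoc]
    rw [e2]
    rw [abs_le] at h1 ih ⊢
    push_cast
    constructor <;> nlinarith [h1.1, h1.2, ih.1, ih.2]

/-- the offset may be chosen in `[0, len k)` -/
theorem exists_offset (k : ℕ) (c : Seq) (o : ℤ) (hc : IsCut k o c) :
    ∃ o' : ℕ, o' < len k ∧ IsCut k o' c := by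
  have hpos : 0 < len k := lt_of_lt_of_le (by positivity) (len_ge k)
  have hposZ : (0 : ℤ) < len k := by exact_mod_cast hpos
  have h1 := Int.emod_nonneg o hposZ.ne'
  have h2 := Int.emod_lt_of_pos o hposZ
  refine ⟨(o % len k).toNat, by omega, ?_⟩
  intro j
  have h3 := hc (j - o / len k)
  have e1 : ((o % (len k : ℤ)).toNat : ℤ) + j * len k = o + (j - o / len k) * len k := by
    rw [Int.toNat_of_nonneg h1]
    have := Int.emod_add_mul_ediv o (len k)
    linarith [mul_comm (len k : ℤ) (o / len k)]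
  rw [e1]
  exact h3

theorem uniform_KK (ψ : Seq → ℝ) (hψ : Continuous ψ) (ε : ℝ) (hε : 0 < ε) :
    ∃ N : ℕ, 1 ≤ N ∧ ∃ a : ℝ, ∀ c ∈ KK,
      |(∑ j ∈ Finset.range N, ψ (sh^[j] c)) / (N : ℝ) - a| ≤ ε := by
  obtain ⟨B, hBpos, hB⟩ := exists_bound ψ hψ
  obtain ⟨m, hm⟩ := exists_window ψ hψ (ε / 4) (by positivity)
  obtain ⟨k, hk⟩ := exists_nat_ge (4 * m * B / (ε / 4))
  obtain ⟨q, hq⟩ := exists_nat_ge (2 * B / (ε / 4))
  have hlenpos : (0 : ℝ) < len k := by
    exact_mod_cast lt_of_lt_of_le (by positivity) (len_ge k)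
  have hlen : 4 * m * B ≤ ε / 4 * len k := by
    have h1 : (k : ℝ) ≤ len k := by
      exact_mod_cast (Nat.lt_two_pow_self).le.trans (len_ge k)
    have h2 := hk.trans h1
    rw [div_le_iff₀ (by positivity)] at h2
    linarith
  have hqB : 2 * B ≤ ε / 4 * q := by
    rw [div_le_iff₀ (by positivity)] at hq
    linarith
  have hqpos : (0 : ℝ) < q := by
    have : 0 < ε / 4 * (q : ℝ) := by linarith
    by_contra hcon
    push Not at hcon
    nlinarith
  have hqn : 0 < q := by exact_mod_cast hqpos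
  have hMpos : (0 : ℝ) < (words k).card := by
    have := two_le_card_words k
    exact_mod_cast (by omega : 0 < (words k).card)
  have hLeq : (len (k + 1) : ℝ) = len k * (words k).card := by
    have : len (k + 1) = len k * (words k).card := rfl
    rw [this]; push_cast; ring
  have hLpos : (0 : ℝ) < len (k + 1) := by rw [hLeq]; positivity
  have hLn : 0 < len (k + 1) := by exact_mod_cast hLpos
  refine ⟨q * len (k + 1), Nat.mul_pos hqn hLn, (∑ w ∈ words k, wsum ψ w) / len (k + 1), ?_⟩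
  intro c hc
  obtain ⟨o, ho⟩ := hc (k + 1)
  obtain ⟨o', ho', hcut⟩ := exists_offset (k + 1) c o ho
  have h1 := many_blocks ψ (ε / 4) B (by positivity) hB m hm c k o' hcut q
  set N := q * len (k + 1) with hN
  have hNr : (N : ℝ) = q * len (k + 1) := by rw [hN]; push_cast; ring
  have hNpos : (0 : ℝ) < N := by rw [hNr]; positivity
  -- shift of the window
  have h2 : |(∑ j ∈ Finset.range N, ψ (sh^[j] c)) - ∑ j ∈ Finset.range N, ψ (sh^[o' + j] c)| ≤
      2 * o' * B := by
    have e1 := Finset.sum_range_add (fun j => ψ (sh^[j] c)) o' N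
    have e2 := Finset.sum_range_add (fun j => ψ (sh^[j] c)) N o'
    have e3 : (∑ j ∈ Finset.range N, ψ (sh^[j] c)) - ∑ j ∈ Finset.range N, ψ (sh^[o' + j] c) =
        (∑ j ∈ Finset.range o', ψ (sh^[j] c)) - ∑ j ∈ Finset.range o', ψ (sh^[N + j] c) := by
      rw [add_comm o' N] at e1
      linarith
    rw [e3]
    have h3 : |∑ j ∈ Finset.range o', ψ (sh^[j] c)| ≤ o' * B := by
      refine (Finset.abs_sum_le_sum_abs _ _).trans ?_
      refine (Finset.sum_le_sum (fun j _ => hB _)).trans ?_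
      simp
    have h4 : |∑ j ∈ Finset.range o', ψ (sh^[N + j] c)| ≤ o' * B := by
      refine (Finset.abs_sum_le_sum_abs _ _).trans ?_
      refine (Finset.sum_le_sum (fun j _ => hB _)).trans ?_
      simp
    have h5 := abs_sub (∑ j ∈ Finset.range o', ψ (sh^[j] c))
      (∑ j ∈ Finset.range o', ψ (sh^[N + j] c))
    linarith
  have ho'r : (o' : ℝ) ≤ len (k + 1) := by exact_mod_cast ho'.le
  have e4 : (∑ j ∈ Finset.range N, ψ (sh^[j] c)) / (N : ℝ) -
      (∑ w ∈ words k, wsum ψ w) / len (k + 1) =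
      ((∑ j ∈ Finset.range N, ψ (sh^[j] c)) - q * ∑ w ∈ words k, wsum ψ w) / N := by
    rw [hNr]
    field_simp
  rw [e4, abs_div, abs_of_pos hNpos, div_le_iff₀ hNpos]
  have h6 : |(∑ j ∈ Finset.range N, ψ (sh^[j] c)) - q * ∑ w ∈ words k, wsum ψ w| ≤
      2 * o' * B + q * ((words k).card * (len k * (ε / 4) + 4 * m * B)) := by
    rw [abs_le] at h1 h2 ⊢
    constructor <;> linarith [h1.1, h1.2, h2.1, h2.2]
  refine h6.trans ?_
  have h7 : 2 * (o' : ℝ) * B ≤ ε / 4 * N := by
    rw [hNr]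
    calc 2 * (o' : ℝ) * B = o' * (2 * B) := by ring
      _ ≤ len (k + 1) * (2 * B) := by
        apply mul_le_mul_of_nonneg_right ho'r (by positivity)
      _ ≤ len (k + 1) * (ε / 4 * q) := by
        apply mul_le_mul_of_nonneg_left hqB (by positivity)
      _ = ε / 4 * (q * len (k + 1)) := by ring
  have h8 : (q : ℝ) * ((words k).card * (len k * (ε / 4) + 4 * m * B)) ≤ ε / 2 * N := by
    rw [hNr, hLeq]
    calc (q : ℝ) * ((words k).card * (len k * (ε / 4) + 4 * m * B))
        ≤ (q : ℝ) * ((words k).card * (len k * (ε / 4) + ε / 4 * len k)) := by gcongr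
      _ = ε / 2 * (q * (len k * (words k).card)) := by ring
  linarith [mul_pos hε hNpos]

end DR
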