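import Pool.Agent.MP_7f417e_an.Defs

/-! [DR-2] averages along sequences (helper76) -/

open scoped Manifold ContDiff ENNReal Topology
open Filter Set

namespace DR

/-- Cesàro convergence -/
def Conv (a : ℕ → ℝ) : Prop :=
  ∃ l : ℝ, Tendsto (fun n : ℕ => (∑ j ∈ Finset.range n, a j) / (n : ℝ)) atTop (𝓝 l)

theorem conv_of_sub_tendsto_zero (a b : ℕ → ℝ)
    (h : Tendsto (fun n => a n - b n) atTop (𝓝 0)) (hb : Conv b) : Conv a := by
  obtain ⟨l, hl⟩ := hb
  refine ⟨l, ?_⟩
  have h1 := h.cesaro
  have h2 := h1.add hl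
  rw [zero_add] at h2
  refine h2.congr fun n => ?_
  rw [Finset.sum_sub_distrib, div_eq_inv_mul, div_eq_inv_mul]
  ring

/-- shifting the window of a sum -/
theorem abs_sum_shift_sub_le (a : ℕ → ℝ) (B : ℝ) (hB : ∀ n, |a n| ≤ B) (n j : ℕ) :
    |∑ i ∈ Finset.range n, a (i + j) - ∑ i ∈ Finset.range n, a i| ≤ 2 * j * B := by
  have h1 : ∑ i ∈ Finset.range n, a (i + j)
      = ∑ i ∈ Finset.range (n + j), a i - ∑ i ∈ Finset.range j, a i := by
    rw [add_comm n j, Finset.sum_range_add]
    simp only [add_comm j]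
    ring
  have h2 : ∑ i ∈ Finset.range (n + j), a i
      = ∑ i ∈ Finset.range n, a i + ∑ i ∈ Finset.range j, a (n + i) := Finset.sum_range_add _ _ _
  have h3 : |∑ i ∈ Finset.range j, a (n + i)| ≤ j * B := by
    calc |∑ i ∈ Finset.range j, a (n + i)| ≤ ∑ i ∈ Finset.range j, |a (n + i)| :=
          Finset.abs_sum_le_sum_abs _ _
      _ ≤ ∑ _i ∈ Finset.range j, B := Finset.sum_le_sum fun i _ => hB _
      _ = j * B := by simp
  have h4 : |∑ i ∈ Finset.range j, a i| ≤ j * B := by
    calc |∑ i ∈ Finset.range j, a i| ≤ ∑ i ∈ Finset.range j, |a i| :=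
          Finset.abs_sum_le_sum_abs _ _
      _ ≤ ∑ _i ∈ Finset.range j, B := Finset.sum_le_sum fun i _ => hB _
      _ = j * B := by simp
  rw [h1, h2]
  have e : (∑ i ∈ Finset.range n, a i + ∑ i ∈ Finset.range j, a (n + i)
      - ∑ i ∈ Finset.range j, a i) - ∑ i ∈ Finset.range n, a i
      = ∑ i ∈ Finset.range j, a (n + i) - ∑ i ∈ Finset.range j, a i := by ring
  rw [e]
  calc _ ≤ |∑ i ∈ Finset.range j, a (n + i)| + |∑ i ∈ Finset.range j, a i| := abs_sub _ _
    _ ≤ 2 * j * B := by linarith

theorem conv_of_block (a : ℕ → ℝ) (B : ℝ) (hB : ∀ n, |a n| ≤ B)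
    (h : ∀ ε : ℝ, 0 < ε → ∃ N : ℕ, 1 ≤ N ∧ ∃ c : ℝ, ∀ᶠ n in atTop,
      |(∑ j ∈ Finset.range N, a (n + j)) / (N : ℝ) - c| ≤ ε) : Conv a := by
  have hB0 : 0 ≤ B := (abs_nonneg _).trans (hB 0)
  -- closeness of the averages to a constant
  have key : ∀ ε : ℝ, 0 < ε → ∃ c : ℝ, ∀ᶠ n : ℕ in atTop,
      |(∑ j ∈ Finset.range n, a j) / (n : ℝ) - c| ≤ 2 * ε := by
    intro ε hε
    obtain ⟨N, hN, c, hc⟩ := h ε hε
    obtain ⟨n0, hn0⟩ := eventually_atTop.mp hc
    refine ⟨c, ?_⟩
    have hNpos : (0 : ℝ) < N := by exact_mod_cast hN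
    set A : ℕ → ℝ := fun i => (∑ j ∈ Finset.range N, a (i + j)) / (N : ℝ) with hA
    have hAB : ∀ i, |A i| ≤ B := by
      intro i
      rw [hA]
      simp only
      rw [abs_div, abs_of_pos hNpos, div_le_iff₀ hNpos]
      calc |∑ j ∈ Finset.range N, a (i + j)| ≤ ∑ j ∈ Finset.range N, |a (i + j)| :=
            Finset.abs_sum_le_sum_abs _ _
        _ ≤ ∑ _j ∈ Finset.range N, B := Finset.sum_le_sum fun j _ => hB _
        _ = B * N := by simp [mul_comm]
    have h1 : ∀ n : ℕ, |∑ i ∈ Finset.range n, A i - ∑ i ∈ Finset.range n, a i|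
        ≤ 2 * N * B := by
      intro n
      have e1 : ∑ i ∈ Finset.range n, A i - ∑ i ∈ Finset.range n, a i
          = (∑ j ∈ Finset.range N, (∑ i ∈ Finset.range n, a (i + j)
            - ∑ i ∈ Finset.range n, a i)) / N := by
        simp only [hA]
        rw [← Finset.sum_div, Finset.sum_comm, Finset.sum_sub_distrib, Finset.sum_const,
          Finset.card_range, nsmul_eq_mul, sub_div, mul_div_cancel_left₀ _ hNpos.ne']
      rw [e1, abs_div, abs_of_pos hNpos, div_le_iff₀ hNpos]
      calc |∑ j ∈ Finset.range N, (∑ i ∈ Finset.range n, a (i + j)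
            - ∑ i ∈ Finset.range n, a i)|
          ≤ ∑ j ∈ Finset.range N, |∑ i ∈ Finset.range n, a (i + j)
            - ∑ i ∈ Finset.range n, a i| := Finset.abs_sum_le_sum_abs _ _
        _ ≤ ∑ _j ∈ Finset.range N, 2 * N * B := by
            refine Finset.sum_le_sum fun j hj => ?_
            refine (abs_sum_shift_sub_le a B hB n j).trans ?_
            have : (j : ℝ) ≤ N := by exact_mod_cast (Finset.mem_range.mp hj).le
            gcongr
        _ = 2 * N * B * N := by simp [mul_comm]
    have h2 : ∀ n : ℕ, |∑ i ∈ Finset.range n, A i - n * c| ≤ n0 * (B + |c|) + n * ε := by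
      intro n
      have e1 : ∑ i ∈ Finset.range n, A i - n * c = ∑ i ∈ Finset.range n, (A i - c) := by
        rw [Finset.sum_sub_distrib]; simp
      rw [e1]
      have h3 : ∀ i, |A i - c| ≤ (if i < n0 then B + |c| else 0) + ε := by
        intro i
        split_ifs with hi
        · have := abs_sub (A i) c
          have := hAB i
          linarith
        · have := hn0 i (by omega)
          simpa [hA] using this
      calc |∑ i ∈ Finset.range n, (A i - c)| ≤ ∑ i ∈ Finset.range n, |A i - c| :=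
            Finset.abs_sum_le_sum_abs _ _
        _ ≤ ∑ i ∈ Finset.range n, ((if i < n0 then B + |c| else 0) + ε) :=
            Finset.sum_le_sum fun i _ => h3 i
        _ = ∑ i ∈ Finset.range n, (if i < n0 then B + |c| else 0) + n * ε := by
            rw [Finset.sum_add_distrib]; simp
        _ ≤ n0 * (B + |c|) + n * ε := by
            have hc0 : 0 ≤ B + |c| := by positivity
            have : ∑ i ∈ Finset.range n, (if i < n0 then B + |c| else 0)
                ≤ n0 * (B + |c|) := by
              rw [← Finset.sum_filter, Finset.sum_const, nsmul_eq_mul]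
              have hcard : ((Finset.range n).filter (· < n0)).card ≤ n0 := by
                calc ((Finset.range n).filter (· < n0)).card ≤ (Finset.range n0).card := by
                      apply Finset.card_le_card
                      intro i hi
                      rw [Finset.mem_filter] at hi
                      exact Finset.mem_range.mpr hi.2
                  _ = n0 := Finset.card_range _
              have hcard' : ((((Finset.range n).filter (· < n0)).card : ℕ) : ℝ) ≤ n0 := by
                exact_mod_cast hcard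
              exact mul_le_mul_of_nonneg_right hcard' hc0
            linarith
    have h4 : ∀ᶠ n : ℕ in atTop, (2 * N * B + n0 * (B + |c|)) / ε ≤ n :=
      eventually_atTop.mpr ⟨⌈(2 * N * B + n0 * (B + |c|)) / ε⌉₊, fun n hn =>
        (Nat.le_ceil _).trans (by exact_mod_cast hn)⟩
    filter_upwards [h4, eventually_ge_atTop 1] with n hn hn1
    have hnpos : (0 : ℝ) < n := by exact_mod_cast hn1
    have e2 : (∑ j ∈ Finset.range n, a j) / (n : ℝ) - c
        = (∑ j ∈ Finset.range n, a j - n * c) / n := by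
      rw [sub_div, mul_div_cancel_left₀ _ hnpos.ne']
    rw [e2, abs_div, abs_of_pos hnpos, div_le_iff₀ hnpos]
    rw [div_le_iff₀ hε] at hn
    have h5 : |∑ j ∈ Finset.range n, a j - n * c| ≤
        |∑ i ∈ Finset.range n, A i - ∑ i ∈ Finset.range n, a i|
        + |∑ i ∈ Finset.range n, A i - n * c| := by
      have e3 : ∑ j ∈ Finset.range n, a j - n * c
          = (∑ i ∈ Finset.range n, A i - n * c)
            - (∑ i ∈ Finset.range n, A i - ∑ i ∈ Finset.range n, a i) := by ring
      rw [e3]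
      refine (abs_sub _ _).trans ?_
      rw [add_comm]
    have := h1 n
    have := h2 n
    linarith
  have hcau : CauchySeq (fun n : ℕ => (∑ j ∈ Finset.range n, a j) / (n : ℝ)) := by
    rw [Metric.cauchySeq_iff']
    intro ε hε
    obtain ⟨c, hc⟩ := key (ε / 8) (by positivity)
    obtain ⟨n1, hn1⟩ := eventually_atTop.mp hc
    refine ⟨n1, fun n hn => ?_⟩
    rw [Real.dist_eq]
    have h1 := hn1 n hn
    have h2 := hn1 n1 le_rfl
    have e1 : (∑ j ∈ Finset.range n, a j) / (n : ℝ) - (∑ j ∈ Finset.range n1, a j) / (n1 : ℝ)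
        = ((∑ j ∈ Finset.range n, a j) / (n : ℝ) - c)
          - ((∑ j ∈ Finset.range n1, a j) / (n1 : ℝ) - c) := by ring
    rw [e1]
    calc _ ≤ |(∑ j ∈ Finset.range n, a j) / (n : ℝ) - c|
          + |(∑ j ∈ Finset.range n1, a j) / (n1 : ℝ) - c| := abs_sub _ _
      _ < ε := by linarith
  obtain ⟨l, hl⟩ := cauchySeq_tendsto_of_complete hcau
  exact ⟨l, hl⟩

theorem conv_of_periodic (a : ℕ → ℝ) (q : ℕ) (hq : 1 ≤ q)
    (h : ∀ᶠ n in atTop, a (n + q) = a n) : Conv a := by
  obtain ⟨n0, hn0⟩ := eventually_atTop.mp h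
  have hB : ∀ n, |a n| ≤ ∑ i ∈ Finset.range (n0 + q), |a i| := by
    intro n
    induction n using Nat.strong_induction_on with
    | _ n ih =>
      by_cases hn : n < n0 + q
      · exact Finset.single_le_sum (f := fun i => |a i|) (fun i _ => abs_nonneg _)
          (Finset.mem_range.mpr hn)
      · have h1 := hn0 (n - q) (by omega)
        rw [Nat.sub_add_cancel (by omega)] at h1
        rw [h1]
        exact ih _ (by omega)
  refine conv_of_block a _ hB fun ε hε => ⟨q, hq, (∑ j ∈ Finset.range q, a (n0 + j)) / q, ?_⟩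
  have hconst : ∀ n, n0 ≤ n → ∑ j ∈ Finset.range q, a (n + j)
      = ∑ j ∈ Finset.range q, a (n0 + j) := by
    intro n hn
    induction n, hn using Nat.le_induction with
    | base => rfl
    | succ n hn ih =>
      rw [← ih]
      have e1 : ∑ j ∈ Finset.range (q + 1), a (n + j)
          = ∑ j ∈ Finset.range q, a (n + j) + a (n + q) := Finset.sum_range_succ _ _
      have e2 : ∑ j ∈ Finset.range (q + 1), a (n + j)
          = ∑ j ∈ Finset.range q, a (n + (j + 1)) + a (n + 0) := Finset.sum_range_succ' _ _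
      have e3 : ∑ j ∈ Finset.range q, a (n + 1 + j) = ∑ j ∈ Finset.range q, a (n + (j + 1)) :=
        Finset.sum_congr rfl fun j _ => by congr 1; omega
      have e4 := hn0 n hn
      rw [e3]
      rw [add_zero] at e2
      linarith
  filter_upwards [eventually_ge_atTop n0] with n hn
  rw [hconst n hn, sub_self, abs_zero]
  exact hε.le

theorem conv_of_capture {P : Type*} [TopologicalSpace P] [CompactSpace P]
    (g : P → P) (hg : Continuous g) (K : Set P) (hK : IsClosed K)
    (ψ : P → ℝ) (hψ : Continuous ψ)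
    (hU : ∀ ε : ℝ, 0 < ε → ∃ N : ℕ, 1 ≤ N ∧ ∃ c : ℝ, ∀ q ∈ K,
      |(∑ j ∈ Finset.range N, ψ (g^[j] q)) / (N : ℝ) - c| ≤ ε)
    (p : ℕ → P) (hp : ∀ᶠ n in atTop, p (n + 1) = g (p n))
    (hpK : ∀ U : Set P, IsOpen U → K ⊆ U → ∀ᶠ n in atTop, p n ∈ U) :
    Conv (fun n => ψ (p n)) := by
  obtain ⟨B, hB⟩ := isCompact_univ.exists_bound_of_continuousOn (f := ψ) hψ.continuousOn
  refine conv_of_block _ B (fun n => by simpa using hB (p n) (mem_univ _)) fun ε hε => ?_
  obtain ⟨N, hN, c, hc⟩ := hU (ε / 2) (by positivity)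
  refine ⟨N, hN, c, ?_⟩
  have hcont : Continuous fun q : P => (∑ j ∈ Finset.range N, ψ (g^[j] q)) / (N : ℝ) := by
    apply Continuous.div_const
    exact continuous_finsetSum _ fun j _ => hψ.comp (hg.iterate j)
  have hopen : IsOpen {q : P | |(∑ j ∈ Finset.range N, ψ (g^[j] q)) / (N : ℝ) - c| < ε} :=
    isOpen_lt (hcont.sub continuous_const).abs continuous_const
  have hev := hpK _ hopen fun q hq => by
    have := hc q hq
    rw [mem_ofPred_eq]
    linarith
  obtain ⟨n0, hn0⟩ := eventually_atTop.mp hp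
  have hiter : ∀ n, n0 ≤ n → ∀ j, p (n + j) = g^[j] (p n) := by
    intro n hn j
    induction j with
    | zero => rfl
    | succ j ih =>
      rw [Function.iterate_succ_apply', ← ih, ← hn0 (n + j) (by omega)]
      rfl
  filter_upwards [hev, eventually_ge_atTop n0] with n hn1 hn2
  have e1 : ∑ j ∈ Finset.range N, ψ (p (n + j)) = ∑ j ∈ Finset.range N, ψ (g^[j] (p n)) :=
    Finset.sum_congr rfl fun j _ => by rw [hiter n hn2 j]
  rw [e1]
  exact hn1.le

end DR
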