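import Pool.Agent.MP_7f417e_an.Defs

/-! [DR-3] the horseshoe coding (helper76) -/

open scoped Manifold ContDiff ENNReal Topology NNReal
open Filter Set

namespace DR

theorem continuous_sh' : Continuous sh := continuous_pi fun n => continuous_apply (n + 1)

theorem continuous_shInv' : Continuous shInv := continuous_pi fun n => continuous_apply (n - 1)

/-- the zeroth symbol, as a continuous function -/
noncomputable def bmap : C(Seq, ℝ) :=
  ⟨fun c => if c 0 then (1 : ℝ) else 0,
    (continuous_of_discreteTopology (f := fun b : Bool => if b then (1 : ℝ) else 0)).comp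
      (continuous_apply (0 : ℤ))⟩

/-- the contraction -/
noncomputable def step (w : C(Seq, ℝ)) : C(Seq, ℝ) :=
  ⟨fun c => (bmap c + w (sh c) + w (shInv c)) / 16, by
    have h1 := w.continuous.comp continuous_sh'
    have h2 := w.continuous.comp continuous_shInv'
    exact ((bmap.continuous.add h1).add h2).div_const 16⟩

theorem step_contracting : ContractingWith (1 / 8 : ℝ≥0) step := by
  constructor
  · rw [← NNReal.coe_lt_coe]; norm_num
  · refine LipschitzWith.of_dist_le_mul fun u v => ?_
    rw [ContinuousMap.dist_le (by positivity)]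
    intro c
    have h1 := ContinuousMap.dist_apply_le_dist (f := u) (g := v) (sh c)
    have h2 := ContinuousMap.dist_apply_le_dist (f := u) (g := v) (shInv c)
    rw [Real.dist_eq] at h1 h2 ⊢
    have e1 : step u c - step v c
        = ((u (sh c) - v (sh c)) + (u (shInv c) - v (shInv c))) / 16 := by
      simp only [step, ContinuousMap.coe_mk]
      ring
    rw [e1, abs_div]
    have h3 := abs_add_le (u (sh c) - v (sh c)) (u (shInv c) - v (shInv c))
    have h4 : |(16 : ℝ)| = 16 := by norm_num
    have h5 : ((1 / 8 : ℝ≥0) : ℝ) = 1 / 8 := by norm_num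
    rw [h4, h5]
    linarith

theorem exists_w : ∃ w : Seq → ℝ, Continuous w ∧ (∀ c, |w c| ≤ 1 / 14) ∧
    (∀ c : Seq, 16 * w c = (if c 0 then (1 : ℝ) else 0) + w (sh c) + w (shInv c)) ∧
    (∀ c c' : Seq, c 0 ≠ c' 0 → 1 / 32 ≤ |w c - w c'|) := by
  set w : C(Seq, ℝ) := step_contracting.fixedPoint step with hw
  have hfix : step w = w := step_contracting.fixedPoint_isFixedPt
  have hrec : ∀ c : Seq, 16 * w c = (if c 0 then (1 : ℝ) else 0) + w (sh c) + w (shInv c) := by
    intro c
    have h1 : step w c = w c := by rw [hfix]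
    simp only [step, ContinuousMap.coe_mk] at h1
    have h2 : bmap c = if c 0 then (1 : ℝ) else 0 := rfl
    rw [h2] at h1
    linarith
  have hn : ∀ c, |w c| ≤ ‖w‖ := fun c => ContinuousMap.norm_coe_le_norm w c
  have hb : ∀ c : Seq, |(if c 0 then (1 : ℝ) else 0)| ≤ 1 := by
    intro c
    split_ifs <;> norm_num
  have hnorm : ‖w‖ ≤ 1 / 14 := by
    have h1 : ‖w‖ ≤ (1 + 2 * ‖w‖) / 16 := by
      rw [ContinuousMap.norm_le _ (by positivity)]
      intro c
      rw [Real.norm_eq_abs]
      have e1 : w c = ((if c 0 then (1 : ℝ) else 0) + w (sh c) + w (shInv c)) / 16 := by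
        have := hrec c
        linarith
      rw [e1, abs_div]
      have h4 : |(16 : ℝ)| = 16 := by norm_num
      rw [h4]
      have h5 := abs_add_le ((if c 0 then (1 : ℝ) else 0) + w (sh c)) (w (shInv c))
      have h6 := abs_add_le (if c 0 then (1 : ℝ) else 0) (w (sh c))
      have h7 := hn (sh c)
      have h8 := hn (shInv c)
      have h9 := hb c
      linarith
    linarith
  have hbd : ∀ c, |w c| ≤ 1 / 14 := fun c => (hn c).trans hnorm
  refine ⟨w, w.continuous, hbd, hrec, ?_⟩
  intro c c' hc
  have h1 := hrec c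
  have h2 := hrec c'
  have a1 := abs_le.mp (hbd (sh c))
  have a2 := abs_le.mp (hbd (shInv c))
  have a3 := abs_le.mp (hbd (sh c'))
  have a4 := abs_le.mp (hbd (shInv c'))
  rcases hcc : c 0 with _ | _ <;> rcases hcc' : c' 0 with _ | _
  · exact absurd (hcc.trans hcc'.symm) hc
  · rw [hcc] at h1
    rw [hcc'] at h2
    simp only [if_true, if_false, Bool.false_eq_true] at h1 h2
    rw [le_abs]
    right
    linarith [a1.1, a1.2, a2.1, a2.2, a3.1, a3.2, a4.1, a4.2]
  · rw [hcc] at h1
    rw [hcc'] at h2
    simp only [if_true, if_false, Bool.false_eq_true] at h1 h2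
    rw [le_abs]
    left
    linarith [a1.1, a1.2, a2.1, a2.2, a3.1, a3.2, a4.1, a4.2]
  · exact absurd (hcc.trans hcc'.symm) hc

end DR
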