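import Pool.Agent.MP_7f417e_an.Defs

/-!
# MP_7f417e_an : smoothness of the circle maps
-/

open scoped Manifold ContDiff ENNReal Topology
open Filter Set

namespace DR

attribute [local instance] finrank_real_complex_fact'

theorem aux4_coe_unit {w : ℂ} (hw : w ≠ 0) : ((unit w : Circle) : ℂ) = w / (‖w‖ : ℂ) := by
  exact congrArg Subtype.val (dif_neg hw)

theorem aux4_contMDiff_coe_circle : ContMDiff (𝓡 1) 𝓘(ℝ, ℂ) ∞ (fun z : Circle => (z : ℂ)) :=
  contMDiff_coe_sphere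

theorem aux4_contMDiff_unit {H M F : Type*} [NormedAddCommGroup F] [NormedSpace ℝ F]
    [TopologicalSpace H] {I : ModelWithCorners ℝ F H} [TopologicalSpace M] [ChartedSpace H M]
    [IsManifold I ∞ M] {g : M → ℂ} (hg : ContMDiff I 𝓘(ℝ, ℂ) ∞ g) (h0 : ∀ x, g x ≠ 0) :
    ContMDiff I (𝓡 1) ∞ (fun x => unit (g x)) := by
  have h1 : ContMDiff I 𝓘(ℝ, ℂ) ∞ (fun x => g x / (‖g x‖ : ℂ)) := by
    intro x
    have h2 : ContDiffAt ℝ ∞ (fun w : ℂ => w / (‖w‖ : ℂ)) (g x) := by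
      have h3 : ContDiffAt ℝ ∞ (fun w : ℂ => (‖w‖ : ℂ)) (g x) :=
        Complex.ofRealCLM.contDiff.contDiffAt.comp (g x) (contDiffAt_norm ℝ (h0 x))
      have h3' : ((‖g x‖ : ℝ) : ℂ) ≠ 0 := by
        simpa using h0 x
      have h3'' : ContDiffAt ℝ ∞ (fun w : ℂ => w) (g x) := contDiffAt_id
      simp only [div_eq_mul_inv]
      exact h3''.mul (h3.inv h3')
    exact h2.contMDiffAt.comp x (hg x)
  have h4 : ∀ x, g x / (‖g x‖ : ℂ) ∈ Metric.sphere (0 : ℂ) 1 := by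
    intro x
    have : ‖g x‖ ≠ 0 := by simpa using h0 x
    simp [this]
  have h5 := h1.codRestrict_sphere (n := 1) h4
  have h6 : (fun x => unit (g x)) =
      (Set.codRestrict (fun x => g x / (‖g x‖ : ℂ)) (Metric.sphere (0 : ℂ) 1) h4 :
        M → Metric.sphere (0 : ℂ) 1) := by
    funext x
    apply Subtype.ext
    exact aux4_coe_unit (h0 x)
  rw [h6]
  exact h5

theorem contMDiff_e : ContMDiff 𝓘(ℝ, ℝ) (𝓡 1) ∞ e := by
  have h1 : ContDiff ℝ ∞ (fun t : ℝ => 2 * Real.pi * t) := contDiff_const.mul contDiff_id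
  exact contMDiff_circleExp.comp h1.contMDiff

theorem aux4_sub_im_ne_zero {w : ℂ} (hw : w ≠ 0) : w - (w.im : ℂ) ≠ 0 := by
  intro h
  have h1 := congrArg Complex.im h
  have h2 := congrArg Complex.re h
  simp only [Complex.sub_im, Complex.ofReal_im, sub_zero, Complex.zero_im] at h1
  simp only [Complex.sub_re, Complex.ofReal_re, Complex.zero_re, h1, sub_zero] at h2
  exact hw (Complex.ext h2 h1)

theorem aux4_add_im_ne_zero {w : ℂ} (hw : w ≠ 0) : w + (w.im : ℂ) ≠ 0 := by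
  intro h
  have h1 := congrArg Complex.im h
  have h2 := congrArg Complex.re h
  simp only [Complex.add_im, Complex.ofReal_im, add_zero, Complex.zero_im] at h1
  simp only [Complex.add_re, Complex.ofReal_re, Complex.zero_re, h1, add_zero] at h2
  exact hw (Complex.ext h2 h1)

theorem contMDiff_R : ContMDiff (𝓡 1) (𝓡 1) ∞ R := by
  have h1 : ContDiff ℝ ∞ (fun w : ℂ => w - (w.im : ℂ)) :=
    contDiff_id.sub (Complex.ofRealCLM.contDiff.comp Complex.imCLM.contDiff)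
  exact aux4_contMDiff_unit (h1.contMDiff.comp aux4_contMDiff_coe_circle)
    (fun z => aux4_sub_im_ne_zero z.coe_ne_zero)

theorem contMDiff_Rinv : ContMDiff (𝓡 1) (𝓡 1) ∞ Rinv := by
  have h1 : ContDiff ℝ ∞ (fun w : ℂ => w + (w.im : ℂ)) :=
    contDiff_id.add (Complex.ofRealCLM.contDiff.comp Complex.imCLM.contDiff)
  exact aux4_contMDiff_unit (h1.contMDiff.comp aux4_contMDiff_coe_circle)
    (fun z => aux4_add_im_ne_zero z.coe_ne_zero)

theorem aux4_T_arg_ne_zero (k : ℝ) (z : Circle) :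
    (2 + (k : ℂ) * Complex.I) * (z : ℂ) + (k : ℂ) * Complex.I ≠ 0 := by
  intro h
  have h1 : (2 + (k : ℂ) * Complex.I) * (z : ℂ) = -((k : ℂ) * Complex.I) := by
    linear_combination h
  have h2 := congrArg Complex.normSq h1
  have hz : Complex.normSq (z : ℂ) = 1 := by
    rw [Complex.normSq_eq_norm_sq, Circle.norm_coe]; norm_num
  rw [map_mul, hz, mul_one, Complex.normSq_neg] at h2
  simp [Complex.normSq_apply] at h2

theorem aux4_contMDiff_Targ :
    ContMDiff (𝓘(ℝ, ℝ).prod (𝓡 1)) 𝓘(ℝ, ℂ) ∞ (fun q : ℝ × Circle =>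
      (2 + (q.1 : ℂ) * Complex.I) * (q.2 : ℂ) + (q.1 : ℂ) * Complex.I) := by
  have hk : ContMDiff (𝓘(ℝ, ℝ).prod (𝓡 1)) 𝓘(ℝ, ℝ) ∞ (fun q : ℝ × Circle => q.1) :=
    contMDiff_fst
  have hz : ContMDiff (𝓘(ℝ, ℝ).prod (𝓡 1)) (𝓡 1) ∞ (fun q : ℝ × Circle => q.2) :=
    contMDiff_snd
  have hz' : ContMDiff (𝓘(ℝ, ℝ).prod (𝓡 1)) 𝓘(ℝ, ℂ) ∞ (fun q : ℝ × Circle => (q.2 : ℂ)) :=
    aux4_contMDiff_coe_circle.comp hz
  have hp : ContMDiff (𝓘(ℝ, ℝ).prod (𝓡 1)) 𝓘(ℝ, ℝ × ℂ) ∞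
      (fun q : ℝ × Circle => (q.1, (q.2 : ℂ))) := hk.prodMk_space hz'
  have h1 : ContDiff ℝ ∞ (fun p : ℝ × ℂ =>
      (2 + (p.1 : ℂ) * Complex.I) * p.2 + (p.1 : ℂ) * Complex.I) := by
    have h2 : ContDiff ℝ ∞ (fun p : ℝ × ℂ => (p.1 : ℂ)) :=
      Complex.ofRealCLM.contDiff.comp contDiff_fst
    have h3 : ContDiff ℝ ∞ (fun p : ℝ × ℂ => p.2) := contDiff_snd
    exact ((contDiff_const.add (h2.mul contDiff_const)).mul h3).add (h2.mul contDiff_const)
  exact h1.contMDiff.comp hp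

theorem aux4_contMDiff_Tu :
    ContMDiff (𝓘(ℝ, ℝ).prod (𝓡 1)) (𝓡 1) ∞ (fun q : ℝ × Circle =>
      unit ((2 + (q.1 : ℂ) * Complex.I) * (q.2 : ℂ) + (q.1 : ℂ) * Complex.I)) :=
  aux4_contMDiff_unit aux4_contMDiff_Targ (fun q => aux4_T_arg_ne_zero q.1 q.2)

theorem contMDiff_T :
    ContMDiff (𝓘(ℝ, ℝ).prod (𝓡 1)) (𝓡 1) ∞ (fun q : ℝ × Circle => T q.1 q.2) := by
  have hz : ContMDiff (𝓘(ℝ, ℝ).prod (𝓡 1)) (𝓡 1) ∞ (fun q : ℝ × Circle => q.2) :=
    contMDiff_snd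
  have hz1 : ContMDiff (𝓘(ℝ, ℝ).prod (𝓡 1)) (𝓡 1) ∞ (fun q : ℝ × Circle => q.2⁻¹) := hz.inv
  have h5 := aux4_contMDiff_Tu.pow 2
  have h6 := h5.mul hz1
  unfold T
  exact h6

theorem aux4_coe_e (t : ℝ) : (e t : ℂ) = Complex.exp ((2 * Real.pi * t : ℝ) * Complex.I) := by
  unfold e
  rw [Circle.coe_exp]

theorem aux4_re_e (t : ℝ) : (e t : ℂ).re = Real.cos (2 * Real.pi * t) := by
  rw [aux4_coe_e, Complex.exp_ofReal_mul_I_re]

theorem aux4_contDiff_G : ContDiff ℝ ∞ (fun w : ℂ =>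
    Real.smoothTransition (5 * w.re - 5 / 2) * (w.arg / (2 * Real.pi))) := by
  rw [contDiff_iff_contDiffAt]
  intro w
  by_cases hw : 0 < w.re
  · have h1 : ContDiffAt ℝ ∞ (fun w : ℂ => Real.smoothTransition (5 * w.re - 5 / 2)) w := by
      have h2 : ContDiff ℝ ∞ (fun w : ℂ => 5 * w.re - 5 / 2) :=
        (contDiff_const.mul Complex.reCLM.contDiff).sub contDiff_const
      exact (Real.smoothTransition.contDiff.comp h2).contDiffAt
    have h3 : ContDiffAt ℝ ∞ Complex.log w :=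
      (Complex.contDiffAt_log (Or.inl hw)).restrict_scalars ℝ
    have h4 : ContDiffAt ℝ ∞ (fun w : ℂ => w.arg / (2 * Real.pi)) w := by
      have h5 : ContDiffAt ℝ ∞ (fun w : ℂ => (Complex.log w).im) w :=
        Complex.imCLM.contDiff.contDiffAt.comp w h3
      simp only [Complex.log_im] at h5
      exact h5.div_const _
    exact h1.mul h4
  · have h6 : (fun w : ℂ =>
        Real.smoothTransition (5 * w.re - 5 / 2) * (w.arg / (2 * Real.pi))) =ᶠ[𝓝 w]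
        (fun _ => (0 : ℝ)) := by
      have h7 : {v : ℂ | v.re < 1 / 2} ∈ 𝓝 w :=
        (isOpen_lt Complex.continuous_re continuous_const).mem_nhds (by
          show w.re < 1 / 2
          linarith)
      filter_upwards [h7] with v hv
      have hv' : v.re < 1 / 2 := hv
      rw [Real.smoothTransition.zero_of_nonpos (by linarith), zero_mul]
    exact contDiffAt_const.congr_of_eventuallyEq h6

theorem exists_phi : ∃ φ : Circle → ℝ, ContMDiff (𝓡 1) 𝓘(ℝ, ℝ) ∞ φ ∧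
    ∀ t : ℝ, |t| ≤ 1 / 8 → φ (e t) = t := by
  refine ⟨fun z => Real.smoothTransition (5 * (z : ℂ).re - 5 / 2) *
    ((z : ℂ).arg / (2 * Real.pi)), aux4_contDiff_G.contMDiff.comp aux4_contMDiff_coe_circle, ?_⟩
  intro t ht
  obtain ⟨ht1, ht2⟩ := abs_le.1 ht
  have hpi := Real.pi_pos
  have h1 : |2 * Real.pi * t| ≤ Real.pi / 4 := by
    rw [abs_le]
    constructor <;> nlinarith
  have h2 : (7 / 10 : ℝ) ≤ Real.cos (2 * Real.pi * t) := by
    have h3 : Real.cos (Real.pi / 4) ≤ Real.cos |2 * Real.pi * t| :=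
      Real.cos_le_cos_of_nonneg_of_le_pi (abs_nonneg _) (by linarith) h1
    rw [Real.cos_abs, Real.cos_pi_div_four] at h3
    have h4 : (14 / 10 : ℝ) ≤ √2 := by
      rw [show (14 / 10 : ℝ) = √((14 / 10) ^ 2) from (Real.sqrt_sq (by norm_num)).symm]
      exact Real.sqrt_le_sqrt (by norm_num)
    linarith
  show Real.smoothTransition (5 * (e t : ℂ).re - 5 / 2) * ((e t : ℂ).arg / (2 * Real.pi)) = t
  rw [aux4_re_e, Real.smoothTransition.one_of_one_le (by linarith), one_mul, aux4_coe_e]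
  obtain ⟨h5, h6⟩ := abs_le.1 h1
  rw [Complex.arg_exp_mul_I, (toIocMod_eq_self _).2 ⟨by linarith, by linarith⟩]
  field_simp

theorem exists_beta : ∃ β : Circle → ℝ, ContMDiff (𝓡 1) 𝓘(ℝ, ℝ) ∞ β ∧
    (∀ z : Circle, 1 / 2 ≤ (z : ℂ).re → β z = 1) ∧
    (∀ z : Circle, (z : ℂ).re ≤ 0 → β z = 0) := by
  have h1 : ContDiff ℝ ∞ (fun w : ℂ => Real.smoothTransition (2 * w.re)) := by
    have h2 : ContDiff ℝ ∞ (fun w : ℂ => 2 * w.re) :=
      contDiff_const.mul Complex.reCLM.contDiff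
    exact Real.smoothTransition.contDiff.comp h2
  refine ⟨fun z => Real.smoothTransition (2 * (z : ℂ).re),
    h1.contMDiff.comp aux4_contMDiff_coe_circle, fun z hz => ?_, fun z hz => ?_⟩
  · exact Real.smoothTransition.one_of_one_le (by linarith)
  · exact Real.smoothTransition.zero_of_nonpos (by linarith)

end DR
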