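import Pool.Agent.MP_7f417e_an.Defs

/-! [DR-5] algebra of the circle maps (helper76) -/

open scoped Manifold ContDiff ENNReal Topology ComplexConjugate
open Filter Set

namespace DR

theorem coe_unit (w : ℂ) (hw : w ≠ 0) : (unit w : ℂ) = w / (‖w‖ : ℂ) := by
  have key : ∀ (P : Prop) [Decidable P] (hP : ¬ P) (a : Circle) (b : ¬ P → Circle),
      ((dite P (fun _ => a) b : Circle) : ℂ) = (b hP : ℂ) := by
    intro P _ hP a b
    rw [dif_neg hP]
  exact key _ hw _ _

theorem unit_pos_mul (c : ℝ) (hc : 0 < c) (z : Circle) : unit ((c : ℂ) * z) = z := by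
  have hne : (c : ℂ) * (z : ℂ) ≠ 0 :=
    mul_ne_zero (by exact_mod_cast hc.ne') (Circle.coe_ne_zero z)
  apply Circle.ext
  rw [coe_unit _ hne, norm_mul, Circle.norm_coe, mul_one, Complex.norm_real, Real.norm_eq_abs,
    abs_of_pos hc]
  rw [mul_comm, mul_div_assoc, div_self (by exact_mod_cast hc.ne'), mul_one]

theorem re_sq_add_im_sq (z : Circle) : (z : ℂ).re ^ 2 + (z : ℂ).im ^ 2 = 1 := by
  have h := Circle.normSq_coe z
  rw [Complex.normSq_apply] at h
  linarith [h, sq (z : ℂ).re, sq (z : ℂ).im]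

theorem R_arg_ne_zero (z : Circle) : (z : ℂ) - ((z : ℂ).im : ℂ) ≠ 0 := by
  intro h
  have h1 := congrArg Complex.im h
  have h2 := congrArg Complex.re h
  simp at h1 h2
  have h3 := re_sq_add_im_sq z
  rw [h1] at h2 h3
  have h4 : (z : ℂ).re = 0 := by linarith
  rw [h4] at h3
  norm_num at h3

theorem Rinv_arg_ne_zero (z : Circle) : (z : ℂ) + ((z : ℂ).im : ℂ) ≠ 0 := by
  intro h
  have h1 := congrArg Complex.im h
  have h2 := congrArg Complex.re h
  simp at h1 h2
  have h3 := re_sq_add_im_sq z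
  rw [h1] at h2 h3
  have h4 : (z : ℂ).re = 0 := by linarith
  rw [h4] at h3
  norm_num at h3

theorem coe_R (z : Circle) :
    (R z : ℂ) = ((z : ℂ) - ((z : ℂ).im : ℂ)) / (‖(z : ℂ) - ((z : ℂ).im : ℂ)‖ : ℂ) :=
  coe_unit _ (R_arg_ne_zero z)

theorem coe_Rinv (z : Circle) :
    (Rinv z : ℂ) = ((z : ℂ) + ((z : ℂ).im : ℂ)) / (‖(z : ℂ) + ((z : ℂ).im : ℂ)‖ : ℂ) :=
  coe_unit _ (Rinv_arg_ne_zero z)

theorem Rinv_R (z : Circle) : Rinv (R z) = z := by
  set N : ℝ := ‖(z : ℂ) - ((z : ℂ).im : ℂ)‖ with hN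
  have hNpos : 0 < N := norm_pos_iff.mpr (R_arg_ne_zero z)
  have hN0 : (N : ℂ) ≠ 0 := by exact_mod_cast hNpos.ne'
  have h1 := coe_R z
  rw [← hN] at h1
  have h2 : (R z : ℂ).im = (z : ℂ).im / N := by
    rw [h1, Complex.div_ofReal_im]
    simp
  unfold Rinv
  have h3 : (R z : ℂ) + ((R z : ℂ).im : ℂ) = ((1 / N : ℝ) : ℂ) * z := by
    rw [h2, h1]
    push_cast
    field_simp
    ring
  rw [h3]
  exact unit_pos_mul _ (by positivity) z

theorem R_Rinv (z : Circle) : R (Rinv z) = z := by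
  set N : ℝ := ‖(z : ℂ) + ((z : ℂ).im : ℂ)‖ with hN
  have hNpos : 0 < N := norm_pos_iff.mpr (Rinv_arg_ne_zero z)
  have hN0 : (N : ℂ) ≠ 0 := by exact_mod_cast hNpos.ne'
  have h1 := coe_Rinv z
  rw [← hN] at h1
  have h2 : (Rinv z : ℂ).im = (z : ℂ).im / N := by
    rw [h1, Complex.div_ofReal_im]
    simp
  unfold R
  have h3 : (Rinv z : ℂ) - ((Rinv z : ℂ).im : ℂ) = ((1 / N : ℝ) : ℂ) * z := by
    rw [h2, h1]
    push_cast
    field_simp
    ring
  rw [h3]
  exact unit_pos_mul _ (by positivity) z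

/-! ### the Möbius form of `T` -/

/-- numerator -/
noncomputable def numA (k : ℝ) (z : ℂ) : ℂ := (2 + (k : ℂ) * Complex.I) * z + (k : ℂ) * Complex.I

/-- denominator -/
noncomputable def denD (k : ℝ) (z : ℂ) : ℂ := (2 - (k : ℂ) * Complex.I) - (k : ℂ) * Complex.I * z

theorem conj_numA (k : ℝ) (z : Circle) : conj (numA k z) * (z : ℂ) = denD k z := by
  have hz : conj (z : ℂ) * (z : ℂ) = 1 := by
    rw [mul_comm, Complex.mul_conj, Circle.normSq_coe]
    norm_num
  unfold numA denD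
  simp only [map_add, map_mul, Complex.conj_ofReal, Complex.conj_I, map_ofNat]
  linear_combination (2 - (k : ℂ) * Complex.I) * hz

theorem numA_ne_zero (k : ℝ) (z : Circle) : numA k z ≠ 0 := by
  intro h
  have h1 : (2 + (k : ℂ) * Complex.I) * z = -((k : ℂ) * Complex.I) := by
    unfold numA at h
    exact eq_neg_of_add_eq_zero_left h
  have h2 : ‖(2 + (k : ℂ) * Complex.I)‖ = ‖(k : ℂ) * Complex.I‖ := by
    have := congrArg norm h1
    rwa [norm_mul, Circle.norm_coe, mul_one, norm_neg] at this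
  have h3 : Complex.normSq (2 + (k : ℂ) * Complex.I) = Complex.normSq ((k : ℂ) * Complex.I) := by
    rw [Complex.normSq_eq_norm_sq, Complex.normSq_eq_norm_sq, h2]
  rw [Complex.normSq_apply, Complex.normSq_apply] at h3
  simp at h3

theorem denD_ne_zero (k : ℝ) (z : Circle) : denD k z ≠ 0 := by
  rw [← conj_numA]
  exact mul_ne_zero ((map_ne_zero (starRingEnd ℂ)).mpr (numA_ne_zero k z))
    (Circle.coe_ne_zero z)

theorem coe_T (k : ℝ) (z : Circle) : (T k z : ℂ) = numA k z / denD k z := by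
  have hA := numA_ne_zero k z
  have hD := denD_ne_zero k z
  have hz := Circle.coe_ne_zero z
  have h0 : (T k z : ℂ) = (numA k z / (‖numA k z‖ : ℂ)) ^ 2 * (z : ℂ)⁻¹ := by
    have h1 : T k z = unit (numA k z) ^ 2 * z⁻¹ := rfl
    rw [h1, Circle.coe_mul, Circle.coe_pow, Circle.coe_inv, coe_unit _ hA]
  rw [h0, ← conj_numA]
  have hn : ((‖numA k z‖ : ℝ) : ℂ) ^ 2 = numA k z * conj (numA k z) := by
    rw [Complex.mul_conj, Complex.normSq_eq_norm_sq]
    push_cast
    ring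
  have hc : conj (numA k z) ≠ 0 := (map_ne_zero (starRingEnd ℂ)).mpr hA
  rw [div_pow, hn]
  field_simp

theorem moebius_comp (k : ℝ) (w : ℂ) (hD : denD k w ≠ 0) :
    numA (-k) (numA k w / denD k w) / denD (-k) (numA k w / denD k w) = w := by
  have h1 : numA (-k) (numA k w / denD k w) = 4 * w / denD k w := by
    have e1 : numA (-k) (numA k w / denD k w)
        = ((2 - (k : ℂ) * Complex.I) * numA k w - (k : ℂ) * Complex.I * denD k w)
          / denD k w := by
      rw [eq_div_iff hD]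
      have e2 : numA (-k) (numA k w / denD k w) = (2 - (k : ℂ) * Complex.I)
          * (numA k w / denD k w) - (k : ℂ) * Complex.I := by
        show (2 + ((-k : ℝ) : ℂ) * Complex.I) * (numA k w / denD k w)
          + ((-k : ℝ) : ℂ) * Complex.I = _
        push_cast
        ring
      rw [e2, sub_mul, mul_assoc, div_mul_cancel₀ _ hD]
    rw [e1]
    congr 1
    unfold numA denD
    ring
  have h2 : denD (-k) (numA k w / denD k w) = 4 / denD k w := by
    have e1 : denD (-k) (numA k w / denD k w)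
        = ((2 + (k : ℂ) * Complex.I) * denD k w + (k : ℂ) * Complex.I * numA k w)
          / denD k w := by
      rw [eq_div_iff hD]
      have e2 : denD (-k) (numA k w / denD k w) = (2 + (k : ℂ) * Complex.I)
          + (k : ℂ) * Complex.I * (numA k w / denD k w) := by
        show (2 - ((-k : ℝ) : ℂ) * Complex.I)
          - ((-k : ℝ) : ℂ) * Complex.I * (numA k w / denD k w) = _
        push_cast
        ring
      rw [e2, add_mul, mul_assoc, div_mul_cancel₀ _ hD]
    rw [e1]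
    congr 1
    unfold numA denD
    ring
  rw [h1, h2, div_div_div_cancel_right₀ hD]
  exact mul_div_cancel_left₀ w (by norm_num)

theorem T_neg_T (k : ℝ) (z : Circle) : T (-k) (T k z) = z := by
  apply Circle.ext
  rw [coe_T, coe_T]
  exact moebius_comp k z (denD_ne_zero k z)

theorem T_zero (z : Circle) : T 0 z = z := by
  apply Circle.ext
  rw [coe_T]
  unfold numA denD
  simp

theorem T_neg_one (k : ℝ) : T k (-1) = -1 := by
  apply Circle.ext
  rw [coe_T]
  unfold numA denD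
  simp

theorem R_neg_one : R (-1) = -1 := by
  apply Circle.ext
  rw [coe_R]
  simp

theorem R_one : R 1 = 1 := by
  apply Circle.ext
  rw [coe_R]
  simp

theorem coe_add_one_ne_zero (z : Circle) (hz : z ≠ -1) : (z : ℂ) + 1 ≠ 0 := by
  intro h
  apply hz
  apply Circle.ext
  have : (z : ℂ) = -1 := eq_neg_of_add_eq_zero_left h
  rw [this]
  simp

theorem T_ne_neg_one (k : ℝ) (z : Circle) (hz : z ≠ -1) : T k z ≠ -1 := by
  intro h
  have h1 : (T k z : ℂ) = ((-1 : Circle) : ℂ) := by rw [h]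
  rw [coe_T, div_eq_iff (denD_ne_zero k z)] at h1
  apply coe_add_one_ne_zero z hz
  have h2 : ((-1 : Circle) : ℂ) = -1 := by simp
  rw [h2] at h1
  unfold numA denD at h1
  linear_combination h1 / 2

theorem re_ne_neg_one (z : Circle) (hz : z ≠ -1) : 0 < 1 + (z : ℂ).re := by
  have h := re_sq_add_im_sq z
  have h1 : -1 ≤ (z : ℂ).re := by nlinarith [sq_nonneg (z : ℂ).im, sq_nonneg ((z : ℂ).re)]
  rcases h1.lt_or_eq with h2 | h2
  · linarith
  · exfalso
    apply hz
    apply Circle.ext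
    rw [← h2] at h
    have h3 : (z : ℂ).im = 0 := by
      have : (z : ℂ).im ^ 2 = 0 := by linarith
      exact pow_eq_zero_iff (two_ne_zero) |>.mp this
    apply Complex.ext
    · rw [← h2]; simp
    · rw [h3]; simp

theorem coe_rc (z : Circle) (hz : z ≠ -1) :
    ((rc z : ℝ) : ℂ) = -Complex.I * (((z : ℂ) - 1) / ((z : ℂ) + 1)) := by
  have h1 := re_ne_neg_one z hz
  have h2 := coe_add_one_ne_zero z hz
  have h3 := re_sq_add_im_sq z
  rw [← mul_div_assoc, eq_div_iff h2]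
  have hx : (1 : ℂ) + ((z : ℂ).re : ℂ) ≠ 0 := by
    have : ((1 + (z : ℂ).re : ℝ) : ℂ) ≠ 0 := by exact_mod_cast h1.ne'
    push_cast at this
    exact this
  have h3c : ((z : ℂ).re : ℂ) ^ 2 + ((z : ℂ).im : ℂ) ^ 2 = 1 := by exact_mod_cast h3
  have hzz : (z : ℂ) = ((z : ℂ).re : ℂ) + ((z : ℂ).im : ℂ) * Complex.I :=
    (Complex.re_add_im _).symm
  have hrc : ((rc z : ℝ) : ℂ) = ((z : ℂ).im : ℂ) / (1 + ((z : ℂ).re : ℂ)) := by
    unfold rc
    push_cast
    rfl
  rw [hrc, div_mul_eq_mul_div, div_eq_iff hx]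
  generalize ((z : ℂ).re : ℂ) = x at *
  generalize ((z : ℂ).im : ℂ) = y at *
  rw [hzz]
  linear_combination Complex.I * h3c + y * (1 + x) * Complex.I_sq

theorem rc_T (k : ℝ) (z : Circle) (hz : z ≠ -1) : rc (T k z) = rc z + k := by
  have h0 := T_ne_neg_one k z hz
  have h1 := coe_rc z hz
  have h2 := coe_rc (T k z) h0
  have h3 := coe_add_one_ne_zero z hz
  have hD := denD_ne_zero k z
  have h4 := coe_add_one_ne_zero (T k z) h0
  have h5 : ((rc (T k z) : ℝ) : ℂ) = ((rc z + k : ℝ) : ℂ) := by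
    rw [h2]
    push_cast
    rw [h1]
    rw [coe_T] at h4 ⊢
    have h6 : numA k z / denD k z - 1 = (2 * ((z : ℂ) - 1) + 2 * (k * Complex.I) * ((z : ℂ) + 1))
        / denD k z := by
      rw [eq_div_iff hD, sub_mul, div_mul_cancel₀ _ hD]
      unfold numA denD
      ring
    have h7 : numA k z / denD k z + 1 = (2 * ((z : ℂ) + 1)) / denD k z := by
      rw [eq_div_iff hD, add_mul, div_mul_cancel₀ _ hD]
      unfold numA denD
      ring
    rw [h6, h7, div_div_div_cancel_right₀ hD]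
    field_simp
    linear_combination (-(k : ℂ) * ((z : ℂ) + 1)) * Complex.I_sq
  exact_mod_cast h5

/-- the norm in `R` -/
theorem norm_R_arg (z : Circle) : ‖(z : ℂ) - ((z : ℂ).im : ℂ)‖
    = Real.sqrt (((z : ℂ).re - (z : ℂ).im) ^ 2 + (z : ℂ).im ^ 2) := by
  rw [Complex.norm_eq_sqrt_sq_add_sq]
  simp

theorem R_re_im (z : Circle) :
    (R z : ℂ).re = ((z : ℂ).re - (z : ℂ).im) / ‖(z : ℂ) - ((z : ℂ).im : ℂ)‖ ∧
    (R z : ℂ).im = (z : ℂ).im / ‖(z : ℂ) - ((z : ℂ).im : ℂ)‖ := by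
  rw [coe_R]
  constructor
  · rw [Complex.div_ofReal_re]; simp
  · rw [Complex.div_ofReal_im]; simp

theorem R_ne_neg_one (z : Circle) (hz : z ≠ -1) : R z ≠ -1 := by
  intro h
  apply hz
  rw [← Rinv_R z, h]
  have h1 : R (-1) = -1 := R_neg_one
  rw [← h1, Rinv_R]
  exact h1.symm

theorem rc_R (z : Circle) : rc (R z) = (z : ℂ).im /
    (‖(z : ℂ) - ((z : ℂ).im : ℂ)‖ + ((z : ℂ).re - (z : ℂ).im)) := by
  obtain ⟨h1, h2⟩ := R_re_im z
  have hNpos : 0 < ‖(z : ℂ) - ((z : ℂ).im : ℂ)‖ := norm_pos_iff.mpr (R_arg_ne_zero z)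
  unfold rc
  rw [h1, h2]
  set N := ‖(z : ℂ) - ((z : ℂ).im : ℂ)‖
  have h3 : 1 + ((z : ℂ).re - (z : ℂ).im) / N = (N + ((z : ℂ).re - (z : ℂ).im)) / N := by
    field_simp
  rw [h3, div_div_div_cancel_right₀ hNpos.ne']

theorem norm_sq_R_arg (z : Circle) : ‖(z : ℂ) - ((z : ℂ).im : ℂ)‖ ^ 2
    = ((z : ℂ).re - (z : ℂ).im) ^ 2 + (z : ℂ).im ^ 2 := by
  rw [norm_R_arg, Real.sq_sqrt (by positivity)]

theorem rc_lt_rc_R (z : Circle) (hz : z ≠ -1) (hy : (z : ℂ).im ≠ 0) : rc z < rc (R z) := by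
  have h1 := re_ne_neg_one z hz
  have h3 := re_sq_add_im_sq z
  have hN := norm_sq_R_arg z
  have hNpos : 0 < ‖(z : ℂ) - ((z : ℂ).im : ℂ)‖ := norm_pos_iff.mpr (R_arg_ne_zero z)
  rw [rc_R]
  unfold rc
  set N := ‖(z : ℂ) - ((z : ℂ).im : ℂ)‖
  set x := (z : ℂ).re
  set y := (z : ℂ).im
  have hy2 : 0 < y ^ 2 := by positivity
  have hNx : |x - y| < N := by
    apply abs_lt_of_sq_lt_sq _ hNpos.le
    nlinarith
  have hpos : 0 < N + (x - y) := by
    have := neg_abs_le (x - y)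
    linarith
  rcases lt_or_gt_of_ne hy with hneg | hpos'
  · -- y < 0
    have h4 : 1 + y < N := by
      by_contra hcon
      push Not at hcon
      have : N ^ 2 ≤ (1 + y) ^ 2 := by nlinarith
      nlinarith
    rw [div_lt_div_iff₀ h1 hpos]
    nlinarith
  · have h4 : N < 1 + y := by
      apply lt_of_pow_lt_pow_left₀ 2 (by linarith)
      nlinarith
    rw [div_lt_div_iff₀ h1 hpos]
    nlinarith

theorem rc_le_rc_R (z : Circle) (hz : z ≠ -1) : rc z ≤ rc (R z) := by
  by_cases hy : (z : ℂ).im = 0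
  · rw [rc_R]
    unfold rc
    rw [hy]
    simp
  · exact (rc_lt_rc_R z hz hy).le

theorem eq_one_of_rc_R_eq (z : Circle) (hz : z ≠ -1) (h : rc (R z) = rc z) : z = 1 := by
  have hy : (z : ℂ).im = 0 := by
    by_contra hy
    exact absurd h (rc_lt_rc_R z hz hy).ne'
  have h1 := re_ne_neg_one z hz
  have h3 := re_sq_add_im_sq z
  rw [hy] at h3
  have h4 : (z : ℂ).re = 1 := by nlinarith
  apply Circle.ext
  apply Complex.ext
  · rw [h4]; simp
  · rw [hy]; simp

end DR
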