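import Pool.Agent.MP_7f417e_an.DR_5
import Pool.Agent.MP_7f417e_an.DR_4

open scoped Manifold ContDiff ENNReal Topology
open Filter Set

namespace DR

/-- inverse of the coordinate `rc` -/
noncomputable def zz6 (r : ℝ) : Circle :=
  ⟨⟨(1 - r ^ 2) / (1 + r ^ 2), 2 * r / (1 + r ^ 2)⟩, by
    have h : (1 + r ^ 2) ≠ 0 := by positivity
    change _ ∈ Metric.sphere (0 : ℂ) 1
    rw [mem_sphere_zero_iff_norm, ← sq_eq_sq₀ (norm_nonneg _) zero_le_one,
      ← Complex.normSq_eq_norm_sq, Complex.normSq_mk]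
    field_simp
    ring⟩

lemma zz6_re (r : ℝ) : ((zz6 r : Circle) : ℂ).re = (1 - r ^ 2) / (1 + r ^ 2) := rfl

lemma zz6_im (r : ℝ) : ((zz6 r : Circle) : ℂ).im = 2 * r / (1 + r ^ 2) := rfl

lemma circle_sq6 (z : Circle) : (z : ℂ).re ^ 2 + (z : ℂ).im ^ 2 = 1 := by
  have h := Circle.normSq_coe z
  rw [Complex.normSq_apply] at h
  nlinarith

lemma re_ne6 (z : Circle) (hz : z ≠ -1) : 1 + (z : ℂ).re ≠ 0 := by
  intro h
  apply hz
  have h1 := circle_sq6 z
  have h2 : (z : ℂ).re = -1 := by linarith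
  have h3 : (z : ℂ).im = 0 := by
    rw [h2] at h1
    nlinarith
  apply Circle.ext
  apply Complex.ext
  · rw [h2]; simp
  · rw [h3]; simp

lemma zz6_rc (z : Circle) (hz : z ≠ -1) : zz6 (rc z) = z := by
  have h := re_ne6 z hz
  have h1 := circle_sq6 z
  have h2 : 1 + rc z ^ 2 ≠ 0 := by positivity
  have h3 : (1 + (z : ℂ).re) * rc z = (z : ℂ).im := by
    unfold rc
    field_simp
  have h4 : (1 + rc z ^ 2) * (1 + (z : ℂ).re) = 2 := by
    have : (1 + rc z ^ 2) * (1 + (z : ℂ).re) * (1 + (z : ℂ).re) = 2 * (1 + (z : ℂ).re) := by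
      have : ((1 + (z : ℂ).re) * rc z) ^ 2 = (z : ℂ).im ^ 2 := by rw [h3]
      nlinarith
    exact mul_right_cancel₀ h this
  apply Circle.ext
  apply Complex.ext
  · rw [zz6_re]
    rw [div_eq_iff h2]
    nlinarith
  · rw [zz6_im]
    rw [div_eq_iff h2]
    have : 2 * rc z = (1 + rc z ^ 2) * ((1 + (z : ℂ).re) * rc z) := by
      rw [← mul_assoc, h4]
    rw [h3] at this
    linarith

lemma zz6_ne (r : ℝ) : zz6 r ≠ -1 := by
  intro h
  have h1 : ((zz6 r : Circle) : ℂ).re = -1 := by rw [h]; simp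
  rw [zz6_re] at h1
  have h2 : (1 + r ^ 2) ≠ 0 := by positivity
  rw [div_eq_iff h2] at h1
  linarith

lemma rc_zz6 (r : ℝ) : rc (zz6 r) = r := by
  unfold rc
  rw [zz6_re, zz6_im]
  have h2 : (1 + r ^ 2) ≠ 0 := by positivity
  have h3 : 1 + (1 - r ^ 2) / (1 + r ^ 2) = 2 / (1 + r ^ 2) := by
    field_simp
    ring
  rw [h3]
  field_simp

lemma continuous_zz6 : Continuous zz6 := by
  unfold zz6
  apply Continuous.subtype_mk
  have : (fun r : ℝ => (⟨(1 - r ^ 2) / (1 + r ^ 2), 2 * r / (1 + r ^ 2)⟩ : ℂ)) =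
      fun r : ℝ => (((1 - r ^ 2) / (1 + r ^ 2) : ℝ) : ℂ) + ((2 * r / (1 + r ^ 2) : ℝ) : ℂ) * Complex.I := by
    funext r
    exact Complex.mk_eq_add_mul_I _ _
  rw [this]
  have h2 : ∀ r : ℝ, (1 + r ^ 2) ≠ 0 := fun r => by positivity
  fun_prop (disch := exact h2 _)

lemma continuousAt_rc (z : Circle) (hz : z ≠ -1) : ContinuousAt rc z := by
  unfold rc
  have h := re_ne6 z hz
  apply ContinuousAt.div
  · exact (Complex.continuous_im.comp continuous_subtype_val).continuousAt
  · exact (continuous_const.add (Complex.continuous_re.comp continuous_subtype_val)).continuousAt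
  · exact h

lemma tendsto_zz6_atTop : Tendsto zz6 atTop (𝓝 (-1)) := by
  rw [tendsto_iff_dist_tendsto_zero]
  have h2 : ∀ r : ℝ, (1 + r ^ 2) ≠ 0 := fun r => by positivity
  have hd : ∀ r : ℝ, dist (zz6 r) (-1) = Real.sqrt (4 / (1 + r ^ 2)) := by
    intro r
    have h1 : dist (zz6 r) (-1) = ‖((zz6 r : Circle) : ℂ) - ((-1 : Circle) : ℂ)‖ := by
      rw [← dist_eq_norm]; rfl
    rw [h1, ← Real.sqrt_sq (norm_nonneg _), ← Complex.normSq_eq_norm_sq, Complex.normSq_apply]
    congr 1
    simp only [Complex.sub_re, Complex.sub_im, zz6_re, zz6_im, Circle.coe_neg, Circle.coe_one,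
      Complex.neg_re, Complex.neg_im, Complex.one_re, Complex.one_im]
    field_simp
    ring
  simp_rw [hd]
  rw [← Real.sqrt_zero]
  apply (Real.continuous_sqrt.tendsto 0).comp
  apply Tendsto.div_atTop tendsto_const_nhds
  exact tendsto_atTop_add_const_left _ _ (tendsto_pow_atTop (by norm_num))

theorem circle_dichotomy (z : ℕ → Circle) (k : ℕ → ℝ) (hk : ∀ n, 0 ≤ k n)
    (hz : ∀ n, z (n + 1) = T (k n) (R (z n))) :
    Tendsto z atTop (𝓝 (-1)) ∨ (Tendsto z atTop (𝓝 1) ∧ Tendsto k atTop (𝓝 0)) := by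
  by_cases hA : ∃ n, z n = -1
  · left
    obtain ⟨n, hn⟩ := hA
    have h : ∀ m, n ≤ m → z m = -1 := by
      intro m hm
      induction m, hm using Nat.le_induction with
      | base => exact hn
      | succ m _ ih => rw [hz, ih, R_neg_one, T_neg_one]
    apply tendsto_const_nhds.congr'
    filter_upwards [eventually_ge_atTop n] with m hm
    exact (h m hm).symm
  · push Not at hA
    have hR : ∀ n, R (z n) ≠ -1 := fun n => R_ne_neg_one _ (hA n)
    have hr : ∀ n, rc (z (n + 1)) = rc (R (z n)) + k n := fun n => by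
      rw [hz, rc_T _ _ (hR n)]
    have hmono : Monotone (fun n => rc (z n)) := by
      apply monotone_nat_of_le_succ
      intro n
      rw [hr]
      linarith [rc_le_rc_R _ (hA n), hk n]
    have hzz : z = fun n => zz6 (rc (z n)) := by
      funext n
      exact (zz6_rc _ (hA n)).symm
    rcases tendsto_atTop_of_monotone hmono with h | ⟨l, hl⟩
    · left
      rw [hzz]
      exact tendsto_zz6_atTop.comp h
    · right
      have hlim : Tendsto z atTop (𝓝 (zz6 l)) := by
        rw [hzz]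
        exact (continuous_zz6.tendsto l).comp hl
      have hRlim : Tendsto (fun n => rc (R (z n))) atTop (𝓝 (rc (R (zz6 l)))) := by
        have h1 : Tendsto (fun n => R (z n)) atTop (𝓝 (R (zz6 l))) :=
          (contMDiff_R.continuous.tendsto _).comp hlim
        exact (continuousAt_rc _ (R_ne_neg_one _ (zz6_ne l))).tendsto.comp h1
      have hklim : Tendsto k atTop (𝓝 (l - rc (R (zz6 l)))) := by
        have h1 : k = fun n => rc (z (n + 1)) - rc (R (z n)) := by
          funext n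
          rw [hr]; ring
        rw [h1]
        exact (hl.comp (tendsto_add_atTop_nat 1)).sub hRlim
      have h1 : 0 ≤ l - rc (R (zz6 l)) := ge_of_tendsto' hklim hk
      have h2 := rc_le_rc_R _ (zz6_ne l)
      rw [rc_zz6] at h2
      have h3 : rc (R (zz6 l)) = l := le_antisymm (by linarith) h2
      have h4 : zz6 l = 1 := eq_one_of_rc_R_eq _ (zz6_ne l) (by rw [h3, rc_zz6])
      rw [h4] at hlim
      rw [h3, sub_self] at hklim
      exact ⟨hlim, hklim⟩

end DR
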