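import Pool.Agent.MP_7f417e_an.Defs

/-!
# MP_7f417e_an : [DR-7] positive topological entropy from separated sets
-/

open scoped ENNReal Topology
open Filter Set

namespace DR

theorem entropy_pos_of_separated {X : Type*} [UniformSpace X] (f : X → X)
    (U : Set (X × X)) (hU : U ∈ uniformity X) (h0 : ℝ) (hh : 0 < h0)
    (H : ∀ n0 : ℕ, ∃ n : ℕ, n0 ≤ n ∧ ∃ s : Finset X, Real.exp (h0 * n) ≤ (s.card : ℝ) ∧
      ∀ x ∈ s, ∀ y ∈ s, x ≠ y → ∃ j < n, (f^[j] x, f^[j] y) ∉ U) :
    0 < Dynamics.coverEntropy f (univ : Set X) := by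
  obtain ⟨V, hV, hVs, hVU⟩ := comp_symm_mem_uniformity_sets hU
  have h1 : (h0 : EReal) ≤ Dynamics.netEntropyEntourage f (univ : Set X) V := by
    apply Frequently.le_expGrowthSup
    rw [Filter.frequently_atTop]
    intro n0
    obtain ⟨n, hn, s, hs, hsep⟩ := H n0
    refine ⟨n, hn, ?_⟩
    have hnet : Dynamics.IsDynNetIn f (univ : Set X) V n (s : Set X) := by
      refine ⟨subset_univ _, ?_⟩
      intro x hx y hy hxy
      rw [Function.onFun, Set.disjoint_left]
      intro z hzx hzy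
      obtain ⟨j, hj, hjU⟩ := hsep x hx y hy hxy
      rw [Dynamics.mem_ball_dynEntourage] at hzx hzy
      apply hjU
      apply hVU
      exact ⟨f^[j] z, hzx j hj, hVs.symm _ _ (hzy j hj)⟩
    have h2 := hnet.card_le_netMaxcard
    have h3 : ENNReal.ofReal (Real.exp (h0 * n)) ≤ ((s.card : ℕ) : ℝ≥0∞) := by
      rw [← ENNReal.ofReal_natCast]
      exact ENNReal.ofReal_le_ofReal hs
    have h4 : EReal.exp ((h0 : EReal) * (n : EReal)) = ENNReal.ofReal (Real.exp (h0 * n)) := by
      have : (h0 : EReal) * (n : EReal) = ((h0 * (n : ℝ) : ℝ) : EReal) := by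
        push_cast
        rfl
      rw [this, EReal.exp_coe]
    rw [h4]
    refine h3.trans ?_
    have h5 : (((s.card : ℕ) : ℕ∞) : ℝ≥0∞) ≤ ((Dynamics.netMaxcard f univ V n : ℕ∞) : ℝ≥0∞) := by
      exact ENat.toENNReal_le.2 h2
    simpa using h5
  exact lt_of_lt_of_le (by exact_mod_cast hh)
    (h1.trans (Dynamics.netEntropyEntourage_le_coverEntropy _ _ hV))

end DR
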