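import Pool.Agent.MP_7f417e_an.Defs

open scoped Manifold ContDiff ENNReal Topology
open Filter Set

namespace DR

theorem mem_words_zero (w : List Bool) : w ∈ words 0 ↔ w.length = 4 := by
  unfold words
  simp only [Finset.mem_image, Finset.mem_univ, true_and]
  constructor
  · rintro ⟨a, rfl⟩
    exact List.length_ofFn
  · intro h
    refine ⟨fun i => w.get (i.cast h.symm), ?_⟩
    apply List.ext_get
    · rw [List.length_ofFn, h]
    · intro n h1 h2
      rw [List.get_eq_getElem, List.get_eq_getElem, List.getElem_ofFn]
      rfl

theorem len_succ (k : ℕ) : len (k + 1) = len k * (words k).card := rfl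

theorem mem_words_succ (k : ℕ) (w : List Bool) : w ∈ words (k + 1) ↔
    ∃ l : List (List Bool), l.Nodup ∧ (∀ v, v ∈ l ↔ v ∈ words k) ∧ w = l.flatten := by
  rw [words]
  simp only [List.mem_toFinset, List.mem_map, List.mem_permutations]
  constructor
  · rintro ⟨l, hl, rfl⟩
    refine ⟨l, hl.nodup_iff.mpr (words k).nodup_toList, ?_, rfl⟩
    intro v
    rw [hl.mem_iff, Finset.mem_toList]
  · rintro ⟨l, h1, h2, rfl⟩
    refine ⟨l, ?_, rfl⟩
    rw [List.perm_ext_iff_of_nodup h1 (words k).nodup_toList]
    intro v
    rw [h2, Finset.mem_toList]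

theorem flatten_length8 (n : ℕ) (l : List (List Bool)) (h : ∀ v ∈ l, v.length = n) :
    l.flatten.length = n * l.length := by
  induction l with
  | nil => simp
  | cons a l ih =>
    rw [List.flatten_cons, List.length_append, ih (fun v hv => h v (List.mem_cons_of_mem _ hv)),
      h a List.mem_cons_self, List.length_cons]
    ring

theorem flatten_inj8 (n : ℕ) (l : List (List Bool)) : ∀ l' : List (List Bool),
    (∀ v ∈ l, v.length = n) → (∀ v ∈ l', v.length = n) → l.length = l'.length →
    l.flatten = l'.flatten → l = l' := by
  induction l with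
  | nil =>
    intro l' _ _ h _
    symm
    exact List.length_eq_zero_iff.mp (by simpa using h.symm)
  | cons a l ih =>
    intro l' h1 h2 h3 h4
    cases l' with
    | nil => simp at h3
    | cons b l' =>
      rw [List.flatten_cons, List.flatten_cons] at h4
      have hab : a.length = b.length := by
        rw [h1 a List.mem_cons_self, h2 b List.mem_cons_self]
      obtain ⟨h5, h6⟩ := List.append_inj h4 hab
      rw [h5, ih l' (fun v hv => h1 v (List.mem_cons_of_mem _ hv))
        (fun v hv => h2 v (List.mem_cons_of_mem _ hv)) (by simpa using h3) h6]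

theorem length_eq_card8 (k : ℕ) (l : List (List Bool)) (h1 : l.Nodup)
    (h2 : ∀ v, v ∈ l ↔ v ∈ words k) : l.length = (words k).card := by
  have : l.toFinset = words k := by
    ext v
    rw [List.mem_toFinset, h2]
  rw [← this, List.toFinset_card_of_nodup h1]

theorem length_of_mem_words (k : ℕ) (w : List Bool) (hw : w ∈ words k) : w.length = len k := by
  induction k generalizing w with
  | zero =>
    rw [mem_words_zero] at hw
    exact hw
  | succ k ih =>
    rw [mem_words_succ] at hw
    obtain ⟨l, h1, h2, rfl⟩ := hw
    rw [flatten_length8 (len k) l (fun v hv => ih v ((h2 v).mp hv)), length_eq_card8 k l h1 h2,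
      len_succ]

theorem card_words_succ (k : ℕ) : (words (k + 1)).card = Nat.factorial (words k).card := by
  rw [words, List.toFinset_card_of_nodup, List.length_map, List.length_permutations,
    Finset.length_toList]
  apply List.Nodup.map_on
  · intro l hl l' hl' h
    rw [List.mem_permutations] at hl hl'
    apply flatten_inj8 (len k) l l' _ _ _ h
    · intro v hv
      exact length_of_mem_words k v (Finset.mem_toList.mp (hl.mem_iff.mp hv))
    · intro v hv
      exact length_of_mem_words k v (Finset.mem_toList.mp (hl'.mem_iff.mp hv))
    · rw [hl.length_eq, hl'.length_eq]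
  · exact List.nodup_permutations _ (words k).nodup_toList

theorem card_words_zero8 : (words 0).card = 16 := by
  unfold words
  rw [Finset.card_image_of_injective _ List.ofFn_injective]
  simp

theorem two_le_card_words (k : ℕ) : 2 ≤ (words k).card := by
  induction k with
  | zero => rw [card_words_zero8]; norm_num
  | succ k ih =>
    rw [card_words_succ]
    exact ih.trans (Nat.self_le_factorial _)

theorem log_card_words (k : ℕ) : (len k : ℝ) / 8 + 2 ≤ Real.log ((words k).card : ℝ) := by
  induction k with
  | zero =>
    rw [card_words_zero8]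
    have h1 : (len 0 : ℝ) = 4 := by simp [len]
    have h2 : Real.log ((16 : ℕ) : ℝ) = 4 * Real.log 2 := by
      rw [show ((16 : ℕ) : ℝ) = 2 ^ 4 by norm_num, Real.log_pow]
      norm_num
    rw [h1, h2]
    have := Real.log_two_gt_d9
    linarith
  | succ k ih =>
    rw [card_words_succ, len_succ]
    set m := (words k).card with hm
    have hm2 : 2 ≤ m := two_le_card_words k
    have hmR : (2 : ℝ) ≤ m := by exact_mod_cast hm2
    have hm0 : (0 : ℝ) < m := by linarith
    have hf : (0 : ℝ) < (Nat.factorial m : ℝ) := by exact_mod_cast Nat.factorial_pos m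
    have h1 := Real.pow_div_factorial_le_exp (m : ℝ) hm0.le m
    have h2 : Real.log ((m : ℝ) ^ m / (Nat.factorial m : ℝ)) ≤ m := by
      rw [Real.log_le_iff_le_exp (by positivity)]
      exact h1
    rw [Real.log_div (by positivity) hf.ne', Real.log_pow] at h2
    push_cast
    nlinarith [mul_le_mul_of_nonneg_left ih hm0.le]

theorem len_ge (k : ℕ) : 2 ^ k ≤ len k := by
  induction k with
  | zero => simp [len]
  | succ k ih =>
    rw [len_succ, pow_succ]
    exact Nat.mul_le_mul ih (two_le_card_words k)

end DR
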