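import Pool.Agent.MP_7f417e_an.Defs
import Pool.Agent.MP_7f417e_an.DR_8

/-!
# MP_7f417e_an : [DR-9] the subshift
-/

open scoped Manifold ContDiff ENNReal Topology
open Filter Set

namespace DR

theorem dr9_len_pos (k : ℕ) : 0 < len k :=
  lt_of_lt_of_le (by positivity) (len_ge k)

theorem dr9_block_length (c : Seq) (a : ℤ) (n : ℕ) : (block c a n).length = n := by
  simp [block]

theorem dr9_block_getElem? (c : Seq) (a : ℤ) (n i : ℕ) (hi : i < n) :
    (block c a n)[i]? = some (c (a + i)) := by
  rw [block, List.getElem?_ofFn]
  simp [hi]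

/-- Equality of a block with a word. -/
theorem dr9_block_eq_iff (c : Seq) (a : ℤ) (n : ℕ) (w : List Bool) (hw : w.length = n) :
    block c a n = w ↔ ∀ i : ℕ, i < n → w[i]? = some (c (a + i)) := by
  constructor
  · intro h i hi
    rw [← h, dr9_block_getElem? c a n i hi]
  · intro h
    apply List.ext_getElem?
    intro i
    by_cases hi : i < n
    · rw [h i hi, dr9_block_getElem? c a n i hi]
    · rw [List.getElem?_eq_none (by rw [dr9_block_length]; omega),
        List.getElem?_eq_none (by omega)]

theorem dr9_isClosed_block (a : ℤ) (n : ℕ) (S : Set (List Bool)) :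
    IsClosed {c : Seq | block c a n ∈ S} := by
  have h1 : Continuous (fun c : Seq => (fun i : Fin n => c (a + (i : ℤ)))) := by
    fun_prop
  have h2 : IsClosed {f : Fin n → Bool | List.ofFn f ∈ S} := isClosed_discrete _
  exact h2.preimage h1

theorem dr9_isClosed_isCut (k : ℕ) (o : ℤ) : IsClosed {c : Seq | IsCut k o c} := by
  have h : {c : Seq | IsCut k o c} =
      ⋂ j : ℤ, {c : Seq | block c (o + j * len k) (len k) ∈ (words k : Set (List Bool))} := by
    ext c
    simp [IsCut]
  rw [h]
  exact isClosed_iInter fun j => dr9_isClosed_block _ _ _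

theorem dr9_isCut_add (k : ℕ) (o m : ℤ) (c : Seq) (h : IsCut k o c) :
    IsCut k (o + m * len k) c := by
  intro j
  have := h (m + j)
  rw [show o + m * len k + j * len k = o + (m + j) * len k by ring]
  exact this

theorem dr9_isClosed_exists (k : ℕ) : IsClosed {c : Seq | ∃ o : ℤ, IsCut k o c} := by
  have h : {c : Seq | ∃ o : ℤ, IsCut k o c} =
      ⋃ o ∈ Finset.Ico (0 : ℤ) (len k), {c : Seq | IsCut k o c} := by
    ext c
    simp only [Set.mem_iUnion, exists_prop]
    constructor
    · rintro ⟨o, ho⟩
      have hpos : (0 : ℤ) < len k := by exact_mod_cast dr9_len_pos k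
      refine ⟨o % len k, ?_, ?_⟩
      · rw [Finset.mem_Ico]
        exact ⟨Int.emod_nonneg _ hpos.ne', Int.emod_lt_of_pos _ hpos⟩
      · have h2 := dr9_isCut_add k o (-(o / len k)) c ho
        have h3 : o + -(o / len k) * len k = o % len k := by
          have := Int.emod_add_mul_ediv o (len k)
          linarith
        rw [h3] at h2
        exact h2
    · rintro ⟨o, _, ho⟩
      exact ⟨o, ho⟩
  rw [h]
  exact Set.Finite.isClosed_biUnion (Finset.finite_toSet _) fun o _ => dr9_isClosed_isCut k o

theorem isClosed_KK : IsClosed KK := by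
  have h : KK = ⋂ k : ℕ, {c : Seq | ∃ o : ℤ, IsCut k o c} := by
    ext c
    simp [KK]
  rw [h]
  exact isClosed_iInter fun k => dr9_isClosed_exists k

theorem sh_mem_KK (c : Seq) (hc : c ∈ KK) : sh c ∈ KK := by
  intro k
  obtain ⟨o, ho⟩ := hc k
  refine ⟨o - 1, fun j => ?_⟩
  have h := ho j
  have h2 : block (sh c) (o - 1 + j * len k) (len k) = block c (o + j * len k) (len k) := by
    unfold block sh
    congr 1
    ext i
    congr 1
    ring
  rw [h2]
  exact h

/-- The `r`-th piece of a concatenation of words of equal lengths. -/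
theorem dr9_flatten_piece (L : ℕ) : ∀ (l : List (List Bool)) (_ : ∀ v ∈ l, v.length = L)
    (r i : ℕ) (_ : i < L), r < l.length →
    l.flatten[r * L + i]? = (l.getD r [])[i]? := by
  intro l
  induction l with
  | nil =>
    intro _ r i _ hr
    simp at hr
  | cons a l ih =>
    intro hl r i hi hr
    have ha : a.length = L := hl a (by simp)
    rw [List.flatten_cons]
    cases r with
    | zero =>
      rw [List.getElem?_append_left (by omega)]
      simp
    | succ r =>
      rw [List.getElem?_append_right (by rw [ha]; nlinarith), ha]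
      have h1 : (r + 1) * L + i - L = r * L + i := by
        have : (r + 1) * L = r * L + L := by ring
        omega
      rw [h1, ih (fun v hv => hl v (by simp [hv])) r i hi (by simpa using hr)]
      simp

theorem dr9_isCut_pred (k : ℕ) (o : ℤ) (c : Seq) (h : IsCut (k + 1) o c) : IsCut k o c := by
  intro j
  have hm : (0 : ℤ) < ((words k).card : ℤ) := by
    have := two_le_card_words k
    omega
  have hj := h (j / (words k).card)
  rw [mem_words_succ] at hj
  obtain ⟨l, hnd, hl, hfl⟩ := hj
  have hlen : l.length = (words k).card := by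
    have h1 : l.toFinset = words k := by
      ext v
      rw [List.mem_toFinset, hl]
    rw [← h1, List.toFinset_card_of_nodup hnd]
  set r : ℕ := (j % (words k).card).toNat with hr
  have hr0 : 0 ≤ j % (words k).card := Int.emod_nonneg _ hm.ne'
  have hr1 : j % (words k).card < (words k).card := Int.emod_lt_of_pos _ hm
  have hrz : (r : ℤ) = j % (words k).card := Int.toNat_of_nonneg hr0
  have hrl : r < l.length := by
    rw [hlen]
    omega
  have hmem : l.getD r [] ∈ l := by
    rw [List.getD_eq_getElem _ _ hrl]
    exact List.getElem_mem hrl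
  have hw : l.getD r [] ∈ words k := (hl _).mp hmem
  have hwl := length_of_mem_words k _ hw
  have heq : block c (o + j * len k) (len k) = l.getD r [] := by
    rw [dr9_block_eq_iff _ _ _ _ hwl]
    intro i hi
    rw [← dr9_flatten_piece (len k) l (fun v hv => length_of_mem_words k v ((hl v).mp hv)) r i hi
      hrl, ← hfl, dr9_block_getElem?]
    · congr 2
      have h3 : (j : ℤ) = (words k).card * (j / (words k).card) + r := by
        rw [hrz]
        exact (Int.mul_ediv_add_emod j _).symm
      rw [len_succ]
      push_cast
      nth_rewrite 2 [h3]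
      ring
    · rw [len_succ]
      have h4 : (r + 1) * len k ≤ l.length * len k := Nat.mul_le_mul_right _ hrl
      rw [hlen] at h4
      nlinarith
  rw [heq]
  exact hw

theorem dr9_isCut_le (k : ℕ) (o : ℤ) (c : Seq) : ∀ d : ℕ, IsCut (k + d) o c → IsCut k o c := by
  intro d
  induction d with
  | zero => intro h; exact h
  | succ d ih => intro h; exact ih (dr9_isCut_pred _ _ _ h)

theorem dr9_exists_infix (k : ℕ) (w : List Bool) (hw : w ∈ words k) :
    ∀ d : ℕ, ∃ W ∈ words (k + d), w <:+: W := by
  intro d
  induction d with
  | zero => exact ⟨w, hw, List.infix_rfl⟩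
  | succ d ih =>
    obtain ⟨W, hW, h1⟩ := ih
    refine ⟨(words (k + d)).toList.flatten, ?_, ?_⟩
    · show _ ∈ words (k + d + 1)
      rw [mem_words_succ]
      exact ⟨_, Finset.nodup_toList _, fun v => Finset.mem_toList, rfl⟩
    · exact h1.trans (List.infix_of_mem_flatten (Finset.mem_toList.mpr hW))

theorem dr9_exists_cut (k : ℕ) (w : List Bool) (hw : w ∈ words k) (d : ℕ) :
    ∃ (c : Seq) (o : ℤ), block c 0 (len k) = w ∧ IsCut (k + d) o c := by
  obtain ⟨W, hW, u, v, huv⟩ := dr9_exists_infix k w hw d
  have hwl := length_of_mem_words k w hw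
  have hWl := length_of_mem_words (k + d) W hW
  have hpos : (0 : ℤ) < len (k + d) := by exact_mod_cast dr9_len_pos (k + d)
  have hul : u.length + len k ≤ len (k + d) := by
    rw [← hWl, ← huv, ← hwl]
    simp
  refine ⟨fun n => W.getD ((n + u.length) % (len (k + d) : ℤ)).toNat false, -u.length, ?_, ?_⟩
  · rw [dr9_block_eq_iff _ _ _ _ hwl]
    intro i hi
    have h1 : ((0 + (i : ℤ) + u.length) % (len (k + d) : ℤ)).toNat = u.length + i := by
      rw [Int.emod_eq_of_lt (by omega) (by omega)]
      omega
    simp only [h1]
    rw [← huv]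
    have h2 : (u ++ w ++ v).getD (u.length + i) false = w.getD i false := by
      rw [List.getD_eq_getElem?_getD, List.getD_eq_getElem?_getD, List.append_assoc,
        List.getElem?_append_right (by omega), List.getElem?_append_left (by omega)]
      congr 2
      omega
    rw [h2, List.getD_eq_getElem _ _ (by omega), List.getElem?_eq_getElem (by omega)]
  · intro j
    have : block (fun n => W.getD ((n + u.length) % (len (k + d) : ℤ)).toNat false)
        (-u.length + j * len (k + d)) (len (k + d)) = W := by
      rw [dr9_block_eq_iff _ _ _ _ hWl]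
      intro i hi
      have h1 : ((-(u.length : ℤ) + j * len (k + d) + i + u.length) %
          (len (k + d) : ℤ)).toNat = i := by
        have h2 : (-(u.length : ℤ) + j * len (k + d) + i + u.length) =
            i + len (k + d) * j := by ring
        rw [h2, Int.add_mul_emod_self_left, Int.emod_eq_of_lt (by omega) (by omega)]
        simp
      simp only [h1]
      rw [List.getD_eq_getElem _ _ (by omega), List.getElem?_eq_getElem (by omega)]
    rw [this]
    exact hW

/-- every word of level `k` occurs at position `0` of some element of `KK` -/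
theorem exists_mem_KK_block (k : ℕ) (w : List Bool) (hw : w ∈ words k) :
    ∃ c ∈ KK, block c 0 (len k) = w := by
  let t : ℕ → Set Seq := fun l =>
    {c : Seq | block c 0 (len k) ∈ ({w} : Set (List Bool))} ∩
      ⋂ i ∈ Finset.range (l + 1), {c : Seq | ∃ o : ℤ, IsCut i o c}
  have hcl : ∀ l, IsClosed (t l) := by
    intro l
    refine (dr9_isClosed_block _ _ _).inter ?_
    exact isClosed_biInter fun i _ => dr9_isClosed_exists i
  have hne : (⋂ l, t l).Nonempty := by
    apply IsCompact.nonempty_iInter_of_sequence_nonempty_isCompact_isClosed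
    · intro l c hc
      refine ⟨hc.1, ?_⟩
      have h2 := hc.2
      simp only [Set.mem_iInter, Finset.mem_range] at h2 ⊢
      intro i hi
      exact h2 i (by omega)
    · intro l
      obtain ⟨c, o, h1, h2⟩ := dr9_exists_cut k w hw l
      refine ⟨c, h1, ?_⟩
      simp only [Set.mem_iInter, Finset.mem_range]
      intro i hi
      refine ⟨o, dr9_isCut_le i o c (k + l - i) ?_⟩
      rw [show i + (k + l - i) = k + l by omega]
      exact h2
    · exact (hcl 0).isCompact
    · exact hcl
  obtain ⟨c, hc⟩ := hne
  rw [Set.mem_iInter] at hc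
  refine ⟨c, ?_, (hc 0).1⟩
  intro i
  have h2 := (hc i).2
  simp only [Set.mem_iInter, Finset.mem_range] at h2
  exact h2 i (by omega)

end DR
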