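import Pool.Agent.MP_7f417e_an.DR_1
import Pool.Agent.MP_7f417e_an.DR_2
import Pool.Agent.MP_7f417e_an.DR_3
import Pool.Agent.MP_7f417e_an.DR_4
import Pool.Agent.MP_7f417e_an.DR_5
import Pool.Agent.MP_7f417e_an.DR_6
import Pool.Agent.MP_7f417e_an.DR_7
import Pool.Agent.MP_7f417e_an.DR_8
import Pool.Agent.MP_7f417e_an.DR_9
import Pool.Agent.MP_7f417e_an.DR_10

open scoped Manifold ContDiff ENNReal Topology
open Filter Set

namespace DR

/-! ### the inverse -/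

theorem e_zero : e 0 = 1 := by
  simp [e]

theorem e_add (s t : ℝ) : e (s + t) = e s * e t := by
  simp [e, mul_add]

theorem e_neg (t : ℝ) : e (-t) = (e t)⁻¹ := by
  have h := e_add (-t) t
  rw [neg_add_cancel, e_zero] at h
  exact eq_inv_of_mul_eq_one_left h.symm

theorem e_one : e 1 = 1 := by
  unfold e
  rw [mul_one]
  exact Circle.exp_two_pi

theorem baseInv_base (φ : Circle → ℝ) (b : ℝ) (p : Torus2) : baseInv φ b (base φ b p) = p := by
  rcases p with ⟨u, v⟩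
  simp [baseInv, base]

theorem base_baseInv (φ : Circle → ℝ) (b : ℝ) (p : Torus2) : base φ b (baseInv φ b p) = p := by
  rcases p with ⟨u, v⟩
  simp [baseInv, base]

theorem Finv_F (φ β : Circle → ℝ) (κ : Torus2 → ℝ) (x : Torus3) : Finv φ β κ (F φ β κ x) = x := by
  rcases x with ⟨p, z⟩
  simp only [Finv, F, baseInv_base, T_neg_T, Rinv_R]

theorem F_Finv (φ β : Circle → ℝ) (κ : Torus2 → ℝ) (x : Torus3) : F φ β κ (Finv φ β κ x) = x := by
  rcases x with ⟨p, z⟩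
  have h : ∀ k w, T k (T (-k) w) = w := by
    intro k w
    have := T_neg_T (-k) w
    rwa [neg_neg] at this
  simp only [Finv, F, R_Rinv, h, base_baseInv]

/-! ### smoothness -/

theorem contMDiff_base {φ : Circle → ℝ} (hφ : ContMDiff (𝓡 1) 𝓘(ℝ, ℝ) ∞ φ) :
    ContMDiff (𝓘(ℝ, ℝ).prod I2) I2 ∞ (fun q : ℝ × Torus2 => base φ q.1 q.2) := by
  unfold base
  have h1 : ContMDiff (𝓘(ℝ, ℝ).prod I2) (𝓡 1) ∞ (fun q : ℝ × Torus2 => q.2.1) :=
    contMDiff_fst.comp contMDiff_snd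
  have h2 : ContMDiff (𝓘(ℝ, ℝ).prod I2) (𝓡 1) ∞ (fun q : ℝ × Torus2 => q.2.2) :=
    contMDiff_snd.comp contMDiff_snd
  have h3 : ContMDiff (𝓘(ℝ, ℝ).prod I2) 𝓘(ℝ, ℝ) ∞ (fun q : ℝ × Torus2 => 16 * q.1 * φ q.2.2) := by
    have h4 : ContMDiff (𝓘(ℝ, ℝ).prod I2) 𝓘(ℝ, ℝ) ∞ (fun q : ℝ × Torus2 => q.1) := contMDiff_fst
    have h5 := hφ.comp h2
    exact (contMDiff_const.mul h4).mul h5
  have h6 := contMDiff_e.comp h3
  exact h2.prodMk (h1.inv.mul h6)

theorem contMDiff_baseInv {φ : Circle → ℝ} (hφ : ContMDiff (𝓡 1) 𝓘(ℝ, ℝ) ∞ φ) :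
    ContMDiff (𝓘(ℝ, ℝ).prod I2) I2 ∞ (fun q : ℝ × Torus2 => baseInv φ q.1 q.2) := by
  unfold baseInv
  have h1 : ContMDiff (𝓘(ℝ, ℝ).prod I2) (𝓡 1) ∞ (fun q : ℝ × Torus2 => q.2.1) :=
    contMDiff_fst.comp contMDiff_snd
  have h2 : ContMDiff (𝓘(ℝ, ℝ).prod I2) (𝓡 1) ∞ (fun q : ℝ × Torus2 => q.2.2) :=
    contMDiff_snd.comp contMDiff_snd
  have h3 : ContMDiff (𝓘(ℝ, ℝ).prod I2) 𝓘(ℝ, ℝ) ∞ (fun q : ℝ × Torus2 => 16 * q.1 * φ q.2.1) := by
    have h4 : ContMDiff (𝓘(ℝ, ℝ).prod I2) 𝓘(ℝ, ℝ) ∞ (fun q : ℝ × Torus2 => q.1) := contMDiff_fst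
    have h5 := hφ.comp h1
    exact (contMDiff_const.mul h4).mul h5
  have h6 := contMDiff_e.comp h3
  exact (h2.inv.mul h6).prodMk h1

theorem comp_T {k : Torus3 → ℝ} {g : Torus3 → Circle} (hk : ContMDiff I3 𝓘(ℝ, ℝ) ∞ k)
    (hg : ContMDiff I3 (𝓡 1) ∞ g) : ContMDiff I3 (𝓡 1) ∞ (fun x : Torus3 => T (k x) (g x)) := by
  have h := hk.prodMk hg
  have h2 := contMDiff_T.comp h
  exact h2

theorem comp_base {φ : Circle → ℝ} (hφ : ContMDiff (𝓡 1) 𝓘(ℝ, ℝ) ∞ φ)
    {k : Torus3 → ℝ} {g : Torus3 → Torus2} (hk : ContMDiff I3 𝓘(ℝ, ℝ) ∞ k)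
    (hg : ContMDiff I3 I2 ∞ g) : ContMDiff I3 I2 ∞ (fun x : Torus3 => base φ (k x) (g x)) := by
  have h := hk.prodMk hg
  have h2 := (contMDiff_base hφ).comp h
  exact h2

theorem comp_baseInv {φ : Circle → ℝ} (hφ : ContMDiff (𝓡 1) 𝓘(ℝ, ℝ) ∞ φ)
    {k : Torus3 → ℝ} {g : Torus3 → Torus2} (hk : ContMDiff I3 𝓘(ℝ, ℝ) ∞ k)
    (hg : ContMDiff I3 I2 ∞ g) : ContMDiff I3 I2 ∞ (fun x : Torus3 => baseInv φ (k x) (g x)) := by
  have h := hk.prodMk hg
  have h2 := (contMDiff_baseInv hφ).comp h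
  exact h2

theorem contMDiff_F {φ β : Circle → ℝ} {κ : Torus2 → ℝ}
    (hφ : ContMDiff (𝓡 1) 𝓘(ℝ, ℝ) ∞ φ) (hβ : ContMDiff (𝓡 1) 𝓘(ℝ, ℝ) ∞ β)
    (hκ : ContMDiff I2 𝓘(ℝ, ℝ) ∞ κ) : ContMDiff I3 I3 ∞ (F φ β κ) := by
  have h1 : ContMDiff I3 I2 ∞ (fun x : Torus3 => x.1) := contMDiff_fst
  have h2 : ContMDiff I3 (𝓡 1) ∞ (fun x : Torus3 => x.2) := contMDiff_snd
  have h1' : ContMDiff I3 𝓘(ℝ, ℝ) ∞ (fun x : Torus3 => κ x.1) := hκ.comp h1
  have h2' : ContMDiff I3 (𝓡 1) ∞ (fun x : Torus3 => R x.2) := contMDiff_R.comp h2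
  have h3 : ContMDiff I3 (𝓡 1) ∞ (fun x : Torus3 => T (κ x.1) (R x.2)) := comp_T h1' h2'
  have h3' : ContMDiff I3 𝓘(ℝ, ℝ) ∞ (fun x : Torus3 => β (T (κ x.1) (R x.2))) := hβ.comp h3
  have h4 : ContMDiff I3 I2 ∞ (fun x : Torus3 => base φ (β (T (κ x.1) (R x.2))) x.1) :=
    comp_base hφ h3' h1
  have h7 : F φ β κ = fun x : Torus3 =>
      (base φ (β (T (κ x.1) (R x.2))) x.1, T (κ x.1) (R x.2)) := rfl
  rw [h7]
  exact h4.prodMk h3

theorem contMDiff_Finv {φ β : Circle → ℝ} {κ : Torus2 → ℝ}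
    (hφ : ContMDiff (𝓡 1) 𝓘(ℝ, ℝ) ∞ φ) (hβ : ContMDiff (𝓡 1) 𝓘(ℝ, ℝ) ∞ β)
    (hκ : ContMDiff I2 𝓘(ℝ, ℝ) ∞ κ) : ContMDiff I3 I3 ∞ (Finv φ β κ) := by
  have h1 : ContMDiff I3 I2 ∞ (fun x : Torus3 => x.1) := contMDiff_fst
  have h2 : ContMDiff I3 (𝓡 1) ∞ (fun x : Torus3 => x.2) := contMDiff_snd
  have h2' : ContMDiff I3 𝓘(ℝ, ℝ) ∞ (fun x : Torus3 => β x.2) := hβ.comp h2
  have h4 : ContMDiff I3 I2 ∞ (fun x : Torus3 => baseInv φ (β x.2) x.1) :=
    comp_baseInv hφ h2' h1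
  have h5' : ContMDiff I3 𝓘(ℝ, ℝ) ∞ (fun x : Torus3 => κ (baseInv φ (β x.2) x.1)) :=
    hκ.comp h4
  have h5 : ContMDiff I3 𝓘(ℝ, ℝ) ∞ (fun x : Torus3 => -(κ (baseInv φ (β x.2) x.1))) :=
    h5'.neg
  have h3 : ContMDiff I3 (𝓡 1) ∞
      (fun x : Torus3 => T (-(κ (baseInv φ (β x.2) x.1))) x.2) := comp_T h5 h2
  have h6 : ContMDiff I3 (𝓡 1) ∞
      (fun x : Torus3 => Rinv (T (-(κ (baseInv φ (β x.2) x.1))) x.2)) :=
    contMDiff_Rinv.comp h3
  have h7 : Finv φ β κ = fun x : Torus3 =>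
      (baseInv φ (β x.2) x.1, Rinv (T (-(κ (baseInv φ (β x.2) x.1))) x.2)) := rfl
  rw [h7]
  exact h4.prodMk h6

/-- The diffeomorphism. -/
noncomputable def FF {φ β : Circle → ℝ} {κ : Torus2 → ℝ}
    (hφ : ContMDiff (𝓡 1) 𝓘(ℝ, ℝ) ∞ φ) (hβ : ContMDiff (𝓡 1) 𝓘(ℝ, ℝ) ∞ β)
    (hκ : ContMDiff I2 𝓘(ℝ, ℝ) ∞ κ) : Torus3 ≃ₘ⟮I3, I3⟯ Torus3 where
  toFun := F φ β κ
  invFun := Finv φ β κ
  left_inv := Finv_F φ β κ
  right_inv := F_Finv φ β κ
  contMDiff_toFun := contMDiff_F hφ hβ hκ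
  contMDiff_invFun := contMDiff_Finv hφ hβ hκ

/-! ### the base dynamics -/

theorem shInv_sh (c : Seq) : shInv (sh c) = c := by
  funext n
  simp [sh, shInv]

/-- the coding map -/
noncomputable def pp (w : Seq → ℝ) (c : Seq) : Torus2 := (e (w (shInv c)), e (w c))

theorem continuous_sh : Continuous sh := by
  unfold sh
  fun_prop

theorem continuous_shInv : Continuous shInv := by
  unfold shInv
  fun_prop

theorem continuous_e : Continuous e := contMDiff_e.continuous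

theorem continuous_pp {w : Seq → ℝ} (hw : Continuous w) : Continuous (pp w) := by
  unfold pp
  exact (continuous_e.comp (hw.comp continuous_shInv)).prodMk (continuous_e.comp hw)

theorem base_pp {φ : Circle → ℝ} {w : Seq → ℝ}
    (hφ : ∀ t : ℝ, |t| ≤ 1 / 8 → φ (e t) = t)
    (hb : ∀ c, |w c| ≤ 1 / 14)
    (hr : ∀ c : Seq, 16 * w c = (if c 0 then (1 : ℝ) else 0) + w (sh c) + w (shInv c))
    (c : Seq) : base φ 1 (pp w c) = pp w (sh c) := by
  have h1 : φ (e (w c)) = w c := hφ _ ((hb c).trans (by norm_num))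
  have h2 : e (if c 0 then (1 : ℝ) else 0) = 1 := by
    split_ifs
    · exact e_one
    · exact e_zero
  unfold base pp
  simp only [h1, shInv_sh]
  congr 1
  have h3 : 16 * 1 * w c = w (shInv c) + ((if c 0 then (1 : ℝ) else 0) + w (sh c)) := by
    have := hr c
    linarith
  rw [h3, e_add, e_add, h2]
  simp

theorem iterate_base_pp {φ : Circle → ℝ} {w : Seq → ℝ}
    (hφ : ∀ t : ℝ, |t| ≤ 1 / 8 → φ (e t) = t)
    (hb : ∀ c, |w c| ≤ 1 / 14)
    (hr : ∀ c : Seq, 16 * w c = (if c 0 then (1 : ℝ) else 0) + w (sh c) + w (shInv c))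
    (c : Seq) (j : ℕ) : (base φ 1)^[j] (pp w c) = pp w (sh^[j] c) := by
  induction j with
  | zero => rfl
  | succ j ih =>
    rw [Function.iterate_succ_apply', Function.iterate_succ_apply', ih,
      base_pp hφ hb hr]

theorem iterate_sh_mem (c : Seq) (hc : c ∈ KK) (j : ℕ) : sh^[j] c ∈ KK := by
  induction j with
  | zero => exact hc
  | succ j ih =>
    rw [Function.iterate_succ_apply']
    exact sh_mem_KK _ ih

theorem iterate_sh_apply (c : Seq) (j : ℕ) (n : ℤ) : (sh^[j] c) n = c (n + j) := by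
  induction j generalizing n with
  | zero => simp
  | succ j ih =>
    rw [Function.iterate_succ_apply']
    show (sh^[j] c) (n + 1) = _
    rw [ih]
    congr 1
    push_cast
    ring

theorem continuous_base {φ : Circle → ℝ} (hφ : Continuous φ) (b : ℝ) :
    Continuous (base φ b) := by
  unfold base
  refine continuous_snd.prodMk ((continuous_fst.inv).mul (continuous_e.comp ?_))
  exact continuous_const.mul (hφ.comp continuous_snd)

theorem base_zero (φ : Circle → ℝ) (p : Torus2) : base φ 0 p = (p.2, p.1⁻¹) := by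
  simp [base, e_zero]

theorem base_zero_four (φ : Circle → ℝ) (p : Torus2) :
    base φ 0 (base φ 0 (base φ 0 (base φ 0 p))) = p := by
  simp [base_zero]

/-! ### the data -/

/-- all data of the construction -/
structure Data where
  φ : Circle → ℝ
  β : Circle → ℝ
  κ : Torus2 → ℝ
  w : Seq → ℝ
  hφ : ContMDiff (𝓡 1) 𝓘(ℝ, ℝ) ∞ φ
  hφe : ∀ t : ℝ, |t| ≤ 1 / 8 → φ (e t) = t
  hβ : ContMDiff (𝓡 1) 𝓘(ℝ, ℝ) ∞ β
  hβ1 : ∀ z : Circle, 1 / 2 ≤ (z : ℂ).re → β z = 1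
  hβ0 : ∀ z : Circle, (z : ℂ).re ≤ 0 → β z = 0
  hw : Continuous w
  hwb : ∀ c, |w c| ≤ 1 / 14
  hwr : ∀ c : Seq, 16 * w c = (if c 0 then (1 : ℝ) else 0) + w (sh c) + w (shInv c)
  hws : ∀ c c' : Seq, c 0 ≠ c' 0 → 1 / 32 ≤ |w c - w c'|
  hκ : ContMDiff I2 𝓘(ℝ, ℝ) ∞ κ
  hκ0 : ∀ p, 0 ≤ κ p
  hκs : ∀ p, κ p = 0 ↔ p ∈ pp w '' KK

theorem isClosed_image {w : Seq → ℝ} (hw : Continuous w) : IsClosed (pp w '' KK) :=
  ((isClosed_KK.isCompact).image (continuous_pp hw)).isClosed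

theorem exists_data : Nonempty Data := by
  obtain ⟨w, h1, h2, h3, h4⟩ := exists_w
  obtain ⟨φ, h5, h6⟩ := exists_phi
  obtain ⟨β, h7, h8, h9⟩ := exists_beta
  have hc : IsOpen (pp w '' KK)ᶜ := (isClosed_image h1).isOpen_compl
  obtain ⟨κ, k1, k2, k3⟩ := IsOpen.exists_contMDiff_support_eq (I := I2) (M := Torus2) hc
  refine ⟨⟨φ, β, κ, w, h5, h6, h7, h8, h9, h1, h2, h3, h4, k2, k3, ?_⟩⟩
  intro p
  have : p ∈ Function.support κ ↔ p ∈ (pp w '' KK)ᶜ := by rw [k1]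
  simp only [Function.mem_support, mem_compl_iff] at this
  tauto

namespace Data

variable (D : Data)

/-- The diffeomorphism. -/
noncomputable def f : Torus3 ≃ₘ⟮I3, I3⟯ Torus3 := FF D.hφ D.hβ D.hκ

theorem f_apply (x : Torus3) : D.f x = F D.φ D.β D.κ x := rfl

/-- orbit on the horseshoe -/
theorem f_pp (c : Seq) (hc : c ∈ KK) : D.f (pp D.w c, 1) = (pp D.w (sh c), 1) := by
  rw [f_apply]
  have h1 : D.κ (pp D.w c) = 0 := (D.hκs _).2 ⟨c, hc, rfl⟩
  have h2 : D.β 1 = 1 := D.hβ1 1 (by simp; norm_num)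
  unfold F
  simp only [h1, R_one, T_zero, h2, base_pp D.hφe D.hwb D.hwr]

theorem iterate_f_pp (c : Seq) (hc : c ∈ KK) (j : ℕ) :
    (D.f)^[j] (pp D.w c, 1) = (pp D.w (sh^[j] c), 1) := by
  induction j with
  | zero => rfl
  | succ j ih =>
    rw [Function.iterate_succ_apply', Function.iterate_succ_apply', ih,
      f_pp _ _ (iterate_sh_mem c hc j)]

/-! ### positive entropy -/

theorem exists_delta (D : Data) : ∃ δ : ℝ, 0 < δ ∧ ∀ s t : ℝ, |s| ≤ 1 / 14 → |t| ≤ 1 / 14 →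
    dist (e s) (e t) < δ → |s - t| < 1 / 32 := by
  have h1 : UniformContinuous D.φ := CompactSpace.uniformContinuous_of_continuous D.hφ.continuous
  obtain ⟨δ, hδ, h2⟩ := Metric.uniformContinuous_iff.1 h1 (1 / 32) (by norm_num)
  refine ⟨δ, hδ, fun s t hs ht hst => ?_⟩
  have h3 := h2 hst
  rw [D.hφe s (hs.trans (by norm_num)), D.hφe t (ht.trans (by norm_num)), Real.dist_eq] at h3
  exact h3

theorem entropy_pos : 0 < Dynamics.coverEntropy D.f (univ : Set Torus3) := by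
  obtain ⟨δ, hδ, hδ2⟩ := D.exists_delta
  have hU : {q : Torus3 × Torus3 | dist q.1 q.2 < δ} ∈ uniformity Torus3 :=
    Metric.dist_mem_uniformity hδ
  refine entropy_pos_of_separated D.f _ hU (1 / 8) (by norm_num) ?_
  intro n0
  choose! C hC1 hC2 using exists_mem_KK_block n0
  -- separation
  have hsep : ∀ v ∈ words n0, ∀ v' ∈ words n0, v ≠ v' → ∃ j < len n0,
      ((D.f)^[j] (pp D.w (C v), 1), (D.f)^[j] (pp D.w (C v'), 1)) ∉
        {q : Torus3 × Torus3 | dist q.1 q.2 < δ} := by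
    intro v hv v' hv' hne
    have h1 : ∃ i : Fin (len n0), C v (0 + (i : ℤ)) ≠ C v' (0 + (i : ℤ)) := by
      by_contra hcon
      push Not at hcon
      apply hne
      rw [← hC2 v hv, ← hC2 v' hv']
      unfold block
      congr 1
      funext i
      exact hcon i
    obtain ⟨i, hi⟩ := h1
    refine ⟨i, i.2, ?_⟩
    rw [D.iterate_f_pp _ (hC1 v hv), D.iterate_f_pp _ (hC1 v' hv')]
    intro hmem
    simp only [mem_ofPred_eq, Prod.dist_eq] at hmem
    have h3 : dist (e (D.w (sh^[(i : ℕ)] (C v)))) (e (D.w (sh^[(i : ℕ)] (C v')))) < δ := by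
      refine lt_of_le_of_lt ?_ hmem
      refine le_trans ?_ (le_max_left _ _)
      exact le_max_right _ _
    have h4 := hδ2 _ _ (D.hwb _) (D.hwb _) h3
    have h5 := D.hws (sh^[(i : ℕ)] (C v)) (sh^[(i : ℕ)] (C v')) (by
      rw [iterate_sh_apply, iterate_sh_apply]
      exact hi)
    linarith
  have hinj : Set.InjOn (fun v => ((pp D.w (C v), 1) : Torus3)) (words n0 : Set (List Bool)) := by
    intro v hv v' hv' hvv
    by_contra hne
    obtain ⟨j, _, hj⟩ := hsep v hv v' hv' hne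
    apply hj
    have hvv' : ((pp D.w (C v), 1) : Torus3) = (pp D.w (C v'), 1) := hvv
    rw [hvv']
    simpa using hδ
  classical
  refine ⟨len n0, ?_, (words n0).image (fun v => ((pp D.w (C v), 1) : Torus3)), ?_, ?_⟩
  · exact (Nat.lt_two_pow_self).le.trans (len_ge n0)
  · rw [Finset.card_image_of_injOn hinj]
    have hpos : (0 : ℝ) < ((words n0).card : ℝ) := by
      have := two_le_card_words n0
      exact_mod_cast (by omega : 0 < (words n0).card)
    rw [← Real.le_log_iff_exp_le hpos]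
    have := log_card_words n0
    linarith
  · intro x hx y hy hxy
    rw [Finset.mem_image] at hx hy
    obtain ⟨v, hv, rfl⟩ := hx
    obtain ⟨v', hv', rfl⟩ := hy
    exact hsep v hv v' hv' (fun h => hxy (by rw [h]))

/-! ### convergence of all Birkhoff averages -/

theorem continuous_coe : Continuous (fun z : Circle => (z : ℂ)) := continuous_subtype_val

theorem psi_close (ψ : Torus3 → ℝ) (hψ : Continuous ψ) (p : ℕ → Torus2) (z : ℕ → Circle)
    (z0 : Circle) (hz : Tendsto z atTop (𝓝 z0)) :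
    Tendsto (fun n => ψ (p n, z n) - ψ (p n, z0)) atTop (𝓝 0) := by
  have h1 : UniformContinuous ψ := CompactSpace.uniformContinuous_of_continuous hψ
  rw [Metric.tendsto_atTop]
  intro ε hε
  obtain ⟨δ, hδ, h2⟩ := Metric.uniformContinuous_iff.1 h1 ε hε
  obtain ⟨N, hN⟩ := (Metric.tendsto_atTop.1 hz) δ hδ
  refine ⟨N, fun n hn => ?_⟩
  have h3 : dist ((p n, z n) : Torus3) (p n, z0) < δ := by
    simp only [Prod.dist_eq, dist_self]
    simpa using hN n hn
  have h4 := h2 h3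
  rw [Real.dist_eq] at h4 ⊢
  simpa using h4

theorem birkhoff (ψ : Torus3 → ℝ) (hψ : Continuous ψ) (x : Torus3) :
    Conv (fun n => ψ ((D.f)^[n] x)) := by
  set p : ℕ → Torus2 := fun n => ((D.f)^[n] x).1 with hp
  set z : ℕ → Circle := fun n => ((D.f)^[n] x).2 with hz
  have hstep : ∀ n, ((D.f)^[n + 1] x) = F D.φ D.β D.κ ((D.f)^[n] x) := by
    intro n
    rw [Function.iterate_succ_apply']
    rfl
  have hzs : ∀ n, z (n + 1) = T (D.κ (p n)) (R (z n)) := by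
    intro n
    simp only [hz, hstep]
    rfl
  have hps : ∀ n, p (n + 1) = base D.φ (D.β (z (n + 1))) (p n) := by
    intro n
    rw [hzs n]
    simp only [hp, hstep]
    rfl
  have hpsi : ∀ n, ψ ((D.f)^[n] x) = ψ (p n, z n) := fun n => rfl
  rcases circle_dichotomy z (fun n => D.κ (p n)) (fun n => D.hκ0 _) hzs with h1 | ⟨h1, h2⟩
  · -- `z → -1`
    have hre : Tendsto (fun n => ((z n : Circle) : ℂ).re) atTop (𝓝 (((-1 : Circle) : ℂ).re)) := by
      have hc : Continuous (fun z : Circle => (z : ℂ).re) :=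
        Complex.continuous_re.comp continuous_coe
      exact (hc.tendsto _).comp h1
    have hre0 : ∀ᶠ n in atTop, ((z n : Circle) : ℂ).re < 0 := by
      refine hre.eventually_lt_const ?_
      simp
    have hper : ∀ᶠ n in atTop, p (n + 1) = base D.φ 0 (p n) := by
      have h3 : ∀ᶠ n in atTop, ((z (n + 1) : Circle) : ℂ).re < 0 :=
        (tendsto_add_atTop_nat 1).eventually hre0
      filter_upwards [h3] with n hn
      rw [hps n, D.hβ0 _ hn.le]
    have hper4 : ∀ᶠ n in atTop, p (n + 4) = p n := by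
      obtain ⟨N, hN⟩ := eventually_atTop.1 hper
      refine eventually_atTop.2 ⟨N, fun n hn => ?_⟩
      have e1 := hN n hn
      have e2 := hN (n + 1) (by omega)
      have e3 := hN (n + 2) (by omega)
      have e4 := hN (n + 3) (by omega)
      rw [show n + 4 = n + 3 + 1 from rfl, e4, show n + 3 = n + 2 + 1 from rfl, e3,
        show n + 2 = n + 1 + 1 from rfl, e2, e1, base_zero_four]
    refine conv_of_sub_tendsto_zero _ (fun n => ψ (p n, -1)) (psi_close ψ hψ p z _ h1) ?_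
    refine conv_of_periodic _ 4 (by norm_num) ?_
    filter_upwards [hper4] with n hn
    rw [hn]
  · -- `z → 1`
    have hre : Tendsto (fun n => ((z n : Circle) : ℂ).re) atTop (𝓝 (((1 : Circle) : ℂ).re)) := by
      have hc : Continuous (fun z : Circle => (z : ℂ).re) :=
        Complex.continuous_re.comp continuous_coe
      exact (hc.tendsto _).comp h1
    have hre0 : ∀ᶠ n in atTop, 1 / 2 < ((z n : Circle) : ℂ).re := by
      refine hre.eventually_const_lt ?_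
      simp
      norm_num
    have hper : ∀ᶠ n in atTop, p (n + 1) = base D.φ 1 (p n) := by
      have h3 : ∀ᶠ n in atTop, 1 / 2 < ((z (n + 1) : Circle) : ℂ).re :=
        (tendsto_add_atTop_nat 1).eventually hre0
      filter_upwards [h3] with n hn
      rw [hps n, D.hβ1 _ hn.le]
    refine conv_of_sub_tendsto_zero _ (fun n => ψ (p n, 1)) (psi_close ψ hψ p z _ h1) ?_
    have hψ1 : Continuous (fun q : Torus2 => ψ (q, 1)) := by fun_prop
    refine conv_of_capture (base D.φ 1) (continuous_base D.hφ.continuous 1) (pp D.w '' KK)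
      (isClosed_image D.hw) (fun q => ψ (q, 1)) hψ1 ?_ p hper ?_
    · intro ε hε
      obtain ⟨N, hN, a, ha⟩ := uniform_KK (fun c => ψ (pp D.w c, 1))
        (hψ1.comp (continuous_pp D.hw)) ε hε
      refine ⟨N, hN, a, ?_⟩
      rintro _ ⟨c, hc, rfl⟩
      have h3 := ha c hc
      simp only [iterate_base_pp D.hφe D.hwb D.hwr]
      exact h3
    · intro U hU hKU
      rcases (Uᶜ).eq_empty_or_nonempty with hE | hne
      · refine Eventually.of_forall fun n => ?_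
        by_contra hcon
        have : p n ∈ Uᶜ := hcon
        rw [hE] at this
        exact this
      · obtain ⟨q, hq, hmin⟩ := (hU.isClosed_compl.isCompact).exists_isMinOn hne
          (D.hκ.continuous.continuousOn)
        have hpos : 0 < D.κ q := by
          refine lt_of_le_of_ne (D.hκ0 q) ?_
          intro h0
          exact hq (hKU ((D.hκs q).1 h0.symm))
        have h3 : ∀ᶠ n in atTop, D.κ (p n) < D.κ q := h2.eventually_lt_const hpos
        filter_upwards [h3] with n hn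
        by_contra hcon
        have h4 := hmin (show p n ∈ Uᶜ from hcon)
        simp only [mem_ofPred_eq] at h4
        linarith

end Data

end DR
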