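import Pool.Agent.MP_7f417e_an.Defs

/-! [DR-1] convergence of all Birkhoff averages at `x` makes `η_x` finite (helper76) -/

open scoped Manifold ContDiff ENNReal Topology
open Filter Set

namespace DR

/-- tent function -/
noncomputable def tent (t : ℝ) : ℝ := max 0 (min 1 (2 - |t|))

theorem continuous_tent : Continuous tent := by unfold tent; fun_prop

theorem tent_nonneg (t : ℝ) : 0 ≤ tent t := le_max_left _ _

theorem tent_le_one (t : ℝ) : tent t ≤ 1 := max_le zero_le_one (min_le_left _ _)

theorem tent_eq_one (t : ℝ) (h : |t| < 1) : tent t = 1 := by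
  unfold tent
  rw [min_eq_left (by linarith)]
  norm_num

theorem tent_eq_zero (t : ℝ) (h : 2 ≤ |t|) : tent t = 0 := by
  unfold tent
  rw [max_eq_left]
  exact (min_le_right _ _).trans (by linarith)

theorem sum_tent_le (t : ℝ) (S : Finset ℤ) : ∑ k ∈ S, tent (t - k) ≤ 4 := by
  classical
  have h1 : ∑ k ∈ S, tent (t - k) ≤ ∑ k ∈ Finset.Icc (⌊t⌋ - 1) (⌊t⌋ + 2), tent (t - k) := by
    calc ∑ k ∈ S, tent (t - k) ≤ ∑ k ∈ S ∪ Finset.Icc (⌊t⌋ - 1) (⌊t⌋ + 2), tent (t - k) :=
          Finset.sum_le_sum_of_subset_of_nonneg Finset.subset_union_left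
            fun k _ _ => tent_nonneg _
      _ = ∑ k ∈ Finset.Icc (⌊t⌋ - 1) (⌊t⌋ + 2), tent (t - k) := by
          symm
          apply Finset.sum_subset Finset.subset_union_right
          intro k _ hk
          apply tent_eq_zero
          rw [Finset.mem_Icc, not_and_or, not_le, not_le] at hk
          rcases hk with hk | hk
          · have h2 : (k : ℝ) ≤ ⌊t⌋ - 2 := by
              have : k ≤ ⌊t⌋ - 2 := by omega
              exact_mod_cast this
            have := Int.floor_le t
            rw [abs_of_nonneg (by linarith)]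
            linarith
          · have h2 : (⌊t⌋ : ℝ) + 3 ≤ k := by
              have : ⌊t⌋ + 3 ≤ k := by omega
              exact_mod_cast this
            have := Int.lt_floor_add_one t
            rw [abs_of_nonpos (by linarith)]
            linarith
  have h3 : ∑ k ∈ Finset.Icc (⌊t⌋ - 1) (⌊t⌋ + 2), tent (t - k)
      ≤ ∑ _k ∈ Finset.Icc (⌊t⌋ - 1) (⌊t⌋ + 2), (1 : ℝ) :=
    Finset.sum_le_sum fun k _ => tent_le_one _
  have h4 : ∑ _k ∈ Finset.Icc (⌊t⌋ - 1) (⌊t⌋ + 2), (1 : ℝ) = 4 := by
    rw [Finset.sum_const, Int.card_Icc]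
    have : (⌊t⌋ + 2 + 1 - (⌊t⌋ - 1)).toNat = 4 := by
      have : ⌊t⌋ + 2 + 1 - (⌊t⌋ - 1) = 4 := by ring
      rw [this]; rfl
    rw [this]
    norm_num
  linarith

theorem exists_mesh {X : Type*} [MetricSpace X] [CompactSpace X] {m : ℕ}
    (E : X → Fin m → ℝ) (hE : Continuous E) (hinj : Function.Injective E) (r : ℝ) (hr : 0 < r) :
    ∃ h > (0 : ℝ), ∀ a b : X, (∀ i, |E a i - E b i| < 2 * h) → dist a b ≤ r := by
  by_cases hne : ({p : X × X | r ≤ dist p.1 p.2}).Nonempty
  · have hc : IsCompact {p : X × X | r ≤ dist p.1 p.2} :=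
      (isClosed_le continuous_const (by fun_prop)).isCompact
    obtain ⟨p, hp, hmin⟩ := hc.exists_isMinOn hne
      (f := fun p : X × X => dist (E p.1) (E p.2)) (by fun_prop)
    have hpos : 0 < dist (E p.1) (E p.2) := by
      rw [dist_pos]
      intro he
      have := hinj he
      rw [mem_ofPred_eq, this, dist_self] at hp
      linarith
    refine ⟨dist (E p.1) (E p.2) / 2, by positivity, ?_⟩
    intro a b hab
    by_contra hcon
    push Not at hcon
    have h1 : dist (E p.1) (E p.2) ≤ dist (E a) (E b) :=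
      hmin (show (a, b) ∈ {p : X × X | r ≤ dist p.1 p.2} from hcon.le)
    have h2 : dist (E a) (E b) < dist (E p.1) (E p.2) := by
      rw [dist_pi_lt_iff hpos]
      intro i
      have := hab i
      rw [Real.dist_eq]
      linarith
    linarith
  · refine ⟨1, one_pos, ?_⟩
    intro a b _
    by_contra hcon
    push Not at hcon
    exact hne ⟨(a, b), hcon.le⟩

theorem tau_empty {X : Type*} (f : X → X) (x : X) : tau f x ∅ = 0 := by
  unfold tau
  simp

/-- the upper frequency is bounded by the limit of the averages of a larger function -/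
theorem tau_le {X : Type*} (f : X → X) (x : X) (A : Set X) (φ : X → ℝ) (h0 : ∀ a, 0 ≤ φ a)
    (h1 : ∀ a ∈ A, φ a = 1) (l : ℝ)
    (hl : Tendsto (fun n : ℕ => (∑ j ∈ Finset.range n, φ (f^[j] x)) / (n : ℝ)) atTop (𝓝 l)) :
    tau f x A ≤ ENNReal.ofReal l := by
  unfold tau
  have h2 : Tendsto (fun n : ℕ => ENNReal.ofReal ((∑ j ∈ Finset.range n, φ (f^[j] x)) / (n : ℝ)))
      atTop (𝓝 (ENNReal.ofReal l)) := ENNReal.tendsto_ofReal hl
  rw [← h2.limsup_eq]
  refine limsup_le_limsup ?_ (by isBoundedDefault) (by isBoundedDefault)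
  · refine Eventually.of_forall fun n => ?_
    rcases Nat.eq_zero_or_pos n with hn | hn
    · subst hn
      simp
    · simp only
      rw [ENNReal.ofReal_div_of_pos (by exact_mod_cast hn), ENNReal.ofReal_natCast]
      apply ENNReal.div_le_div_right
      rw [ENNReal.ofReal_sum_of_nonneg fun j _ => h0 _]
      refine Finset.sum_le_sum fun j _ => ?_
      by_cases hj : f^[j] x ∈ A
      · rw [indicator_of_mem hj, h1 _ hj, ENNReal.ofReal_one]
      · rw [indicator_of_notMem hj]
        exact zero_le

theorem eta_lt_top_of_birkhoff {X : Type*} [MetricSpace X] [CompactSpace X] {m : ℕ}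
    (E : X → Fin m → ℝ) (hE : Continuous E) (hinj : Function.Injective E)
    (f : X → X) (x : X)
    (h : ∀ φ : X → ℝ, Continuous φ → ∃ l : ℝ,
      Tendsto (fun n : ℕ => (∑ j ∈ Finset.range n, φ (f^[j] x)) / (n : ℝ)) atTop (𝓝 l)) :
    eta f x univ < ⊤ := by
  classical
  have key : eta f x univ ≤ ENNReal.ofReal ((4 : ℝ) ^ m) := by
    unfold eta
    refine iSup_le fun r => iSup_le fun hr => ?_
    obtain ⟨d, hd, hdist⟩ := exists_mesh E hE hinj r hr
    -- bound of E
    obtain ⟨B, hB⟩ : ∃ B : ℝ, ∀ a : X, ‖E a‖ ≤ B := by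
      obtain ⟨B, hB⟩ := isCompact_univ.exists_bound_of_continuousOn (f := E) hE.continuousOn
      exact ⟨B, fun a => hB a (mem_univ a)⟩
    set M : ℤ := ⌈B / d⌉ + 1 with hM
    have hMB : B / d + 1 ≤ M := by
      rw [hM]; push_cast
      have := Int.le_ceil (B / d)
      linarith
    set I : (Fin m → ℤ) → Set X := fun k => {a | ∀ i, |E a i / d - k i| < 1} with hI
    set S : Finset (Fin m → ℤ) := Fintype.piFinset fun _ => Finset.Icc (-M) M with hS
    have hEi : ∀ i, Continuous fun a => E a i := fun i => (continuous_apply i).comp hE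
    have hIopen : ∀ k, IsOpen (I k) := by
      intro k
      simp only [hI, ofPred_forall]
      refine isOpen_iInter_of_finite fun i => ?_
      exact isOpen_lt (by have := hEi i; fun_prop) continuous_const
    have hIdiam : ∀ k, Metric.ediam (I k) ≤ ENNReal.ofReal r := by
      intro k
      apply Metric.ediam_le
      intro a ha b hb
      rw [edist_dist]
      apply ENNReal.ofReal_le_ofReal
      apply hdist
      intro i
      have h1 := ha i
      have h2 := hb i
      have h3 : |E a i / d - E b i / d| < 2 := by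
        have : E a i / d - E b i / d = (E a i / d - k i) - (E b i / d - k i) := by ring
        rw [this]
        calc |(E a i / d - k i) - (E b i / d - k i)| ≤ |E a i / d - k i| + |E b i / d - k i| :=
              abs_sub _ _
          _ < 2 := by linarith
      rw [← sub_div, abs_div, abs_of_pos hd, div_lt_iff₀ hd] at h3
      exact h3
    have hIcover : ∀ a : X, ∃ k ∈ S, a ∈ I k := by
      intro a
      refine ⟨fun i => ⌊E a i / d⌋, ?_, ?_⟩
      · rw [hS, Fintype.mem_piFinset]
        intro i
        rw [Finset.mem_Icc]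
        have h1 : |E a i| ≤ B := (norm_le_pi_norm (E a) i).trans (hB a)
        have h2 : |E a i / d| ≤ B / d := by
          rw [abs_div, abs_of_pos hd]
          gcongr
        have h3 := abs_le.mp h2
        have h4 := Int.floor_le (E a i / d)
        have h5 := Int.lt_floor_add_one (E a i / d)
        constructor
        · have : (-(M : ℝ)) ≤ ⌊E a i / d⌋ := by linarith
          exact_mod_cast this
        · have : (⌊E a i / d⌋ : ℝ) ≤ M := by linarith
          exact_mod_cast this
      · intro i
        have h4 := Int.floor_le (E a i / d)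
        have h5 := Int.lt_floor_add_one (E a i / d)
        rw [abs_of_nonneg (by linarith)]
        linarith
    -- test functions
    set φ : (Fin m → ℤ) → X → ℝ := fun k a => ∏ i, tent (E a i / d - k i) with hφ
    have hφc : ∀ k, Continuous (φ k) := by
      intro k
      refine continuous_finsetProd _ fun i _ => ?_
      apply continuous_tent.comp
      have := hEi i
      fun_prop
    have hφ0 : ∀ k a, 0 ≤ φ k a := fun k a => Finset.prod_nonneg fun i _ => tent_nonneg _
    have hφ1 : ∀ k, ∀ a ∈ I k, φ k a = 1 := by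
      intro k a ha
      exact Finset.prod_eq_one fun i _ => tent_eq_one _ (ha i)
    have hφs : ∀ a, ∑ k ∈ S, φ k a ≤ (4 : ℝ) ^ m := by
      intro a
      have h1 : ∑ k ∈ S, φ k a = ∏ i, ∑ n ∈ Finset.Icc (-M) M, tent (E a i / d - n) := by
        rw [Finset.prod_univ_sum]
      rw [h1]
      calc ∏ i, ∑ n ∈ Finset.Icc (-M) M, tent (E a i / d - n) ≤ ∏ _i : Fin m, (4 : ℝ) := by
            refine Finset.prod_le_prod (fun i _ => Finset.sum_nonneg fun n _ => tent_nonneg _)
              fun i _ => sum_tent_le _ _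
        _ = (4 : ℝ) ^ m := by simp
    choose l hl using fun k => h (φ k) (hφc k)
    have hτ : ∀ k, tau f x (I k) ≤ ENNReal.ofReal (l k) := fun k =>
      tau_le f x (I k) (φ k) (hφ0 k) (hφ1 k) (l k) (hl k)
    have hl0 : ∀ k, 0 ≤ l k := by
      intro k
      refine ge_of_tendsto' (hl k) fun n => ?_
      exact div_nonneg (Finset.sum_nonneg fun j _ => hφ0 _ _) (Nat.cast_nonneg _)
    have hls : ∑ k ∈ S, l k ≤ (4 : ℝ) ^ m := by
      have ht : Tendsto (fun n : ℕ => ∑ k ∈ S, (∑ j ∈ Finset.range n, φ k (f^[j] x)) / (n : ℝ))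
          atTop (𝓝 (∑ k ∈ S, l k)) := tendsto_finsetSum _ fun k _ => hl k
      refine le_of_tendsto' ht fun n => ?_
      rw [← Finset.sum_div, Finset.sum_comm]
      rcases Nat.eq_zero_or_pos n with hn | hn
      · subst hn; simp
      · rw [div_le_iff₀ (by exact_mod_cast hn)]
        calc ∑ j ∈ Finset.range n, ∑ k ∈ S, φ k (f^[j] x)
            ≤ ∑ _j ∈ Finset.range n, (4 : ℝ) ^ m := Finset.sum_le_sum fun j _ => hφs _
          _ = (4 : ℝ) ^ m * n := by simp [mul_comm]
    -- the enumeration
    set eq : S ≃ Fin S.card := S.equivFin with heq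
    set J : ℕ → Set X := fun i => if hi : i < S.card then I (eq.symm ⟨i, hi⟩) else ∅ with hJ
    have hJopen : ∀ i, IsOpen (J i) := by
      intro i
      simp only [hJ]
      split_ifs with hi
      · exact hIopen _
      · exact isOpen_empty
    have hJdiam : ∀ i, Metric.ediam (J i) ≤ ENNReal.ofReal r := by
      intro i
      simp only [hJ]
      split_ifs with hi
      · exact hIdiam _
      · simp
    have hJcover : (univ : Set X) ⊆ ⋃ i, J i := by
      intro a _
      obtain ⟨k, hk, hak⟩ := hIcover a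
      rw [mem_iUnion]
      refine ⟨(eq ⟨k, hk⟩ : Fin S.card), ?_⟩
      simp only [hJ]
      rw [dif_pos (eq ⟨k, hk⟩).2]
      simpa using hak
    have h1 : nu f x r univ ≤ ∑' i, tau f x (J i) := by
      unfold nu
      exact iInf_le_of_le J (iInf_le_of_le ⟨hJopen, hJdiam, hJcover⟩ le_rfl)
    have h2 : ∑' i, tau f x (J i) = ∑ k ∈ S, tau f x (I k) := by
      rw [tsum_eq_sum (s := Finset.range S.card)]
      · rw [Finset.sum_range]
        have h3 : ∀ i : Fin S.card, tau f x (J i) = tau f x (I (eq.symm i)) := by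
          intro i
          simp only [hJ]
          rw [dif_pos i.2]
        simp only [h3]
        rw [Equiv.sum_comp eq.symm (fun k : S => tau f x (I k))]
        exact Finset.sum_coe_sort S (fun k => tau f x (I k))
      · intro i hi
        rw [Finset.mem_range] at hi
        simp only [hJ]
        rw [dif_neg hi, tau_empty]
    calc nu f x r univ ≤ ∑' i, tau f x (J i) := h1
      _ = ∑ k ∈ S, tau f x (I k) := h2
      _ ≤ ∑ k ∈ S, ENNReal.ofReal (l k) := Finset.sum_le_sum fun k _ => hτ k
      _ = ENNReal.ofReal (∑ k ∈ S, l k) := by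
          rw [ENNReal.ofReal_sum_of_nonneg fun k _ => hl0 k]
      _ ≤ ENNReal.ofReal ((4 : ℝ) ^ m) := ENNReal.ofReal_le_ofReal hls
  exact key.trans_lt ENNReal.ofReal_lt_top

end DR
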