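import Mathlib

/-!
# MP_7f417e_an : the definitions used in the statement

`tau f x A`, `nu f x r Y` and `eta f x Y` are `τ_x(A)`, `ν_{x,r}(Y)` and `ν_x(Y) = η_x(Y)` of the
problem file.
-/

open scoped ENNReal Topology
open Filter Set

namespace DR

/-- `τ_x(A)`: the upper asymptotic frequency of the visits of the orbit of `x` under `f`
to the set `A`, `limsup_n #{0 ≤ j < n : f^j x ∈ A} / n`. -/
noncomputable def tau {X : Type*} (f : X → X) (x : X) (A : Set X) : ℝ≥0∞ :=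
  limsup (fun n : ℕ =>
    (∑ j ∈ Finset.range n, A.indicator (fun _ => (1 : ℝ≥0∞)) (f^[j] x)) / (n : ℝ≥0∞)) atTop

/-- `ν_{x,r}(Y)`: the infimum of `∑ τ_x(I_i)` over all countable covers `I` of `Y` by open sets
of diameter `≤ r`. -/
noncomputable def nu {X : Type*} [MetricSpace X] (f : X → X) (x : X) (r : ℝ) (Y : Set X) :
    ℝ≥0∞ :=
  ⨅ (I : ℕ → Set X) (_ : (∀ i, IsOpen (I i)) ∧
    (∀ i, Metric.ediam (I i) ≤ ENNReal.ofReal r) ∧ Y ⊆ ⋃ i, I i), ∑' i, tau f x (I i)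

/-- `η_x(Y) = ν_x(Y) = sup_{r > 0} ν_{x,r}(Y)`. -/
noncomputable def eta {X : Type*} [MetricSpace X] (f : X → X) (x : X) (Y : Set X) : ℝ≥0∞ :=
  ⨆ (r : ℝ) (_ : 0 < r), nu f x r Y

end DR
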