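import Mathlib
import Pool.Agent.MP_7f417e_an.Eta

/-!
# MP_7f417e_an : definitions

The auxiliary objects of the construction.
-/

open scoped Manifold ContDiff ENNReal Topology
open Filter Set

namespace DR

/-- The base torus. -/
abbrev Torus2 := Circle × Circle

/-- The three-dimensional torus. -/
abbrev Torus3 := (Circle × Circle) × Circle

/-- The model with corners (no boundary) of the 2-torus. -/
noncomputable abbrev I2 := (𝓡 1).prod (𝓡 1)

/-- The model with corners (no boundary) of the 3-torus. -/
noncomputable abbrev I3 := ((𝓡 1).prod (𝓡 1)).prod (𝓡 1)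

/-! ## 2. The circle -/

/-- `e t = exp (2 π i t)`. -/
noncomputable def e (t : ℝ) : Circle := Circle.exp (2 * Real.pi * t)

/-- the point of the unit circle in the direction of `w`. -/
noncomputable def unit (w : ℂ) : Circle :=
  if h : w = 0 then 1 else
    ⟨w / (‖w‖ : ℂ), by
      have h' : ‖w‖ ≠ 0 := by simpa using h
      simp [Submonoid.unitSphere, h']⟩

/-- The first circle map: it fixes exactly `1` and `-1` and moves every other point
towards `-1` counterclockwise (in the coordinate `rc`). -/
noncomputable def R (z : Circle) : Circle := unit ((z : ℂ) - ((z : ℂ).im : ℂ))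

/-- The inverse of `R`. -/
noncomputable def Rinv (z : Circle) : Circle := unit ((z : ℂ) + ((z : ℂ).im : ℂ))

/-- The second circle map, translation by `k` in the coordinate `rc`. -/
noncomputable def T (k : ℝ) (z : Circle) : Circle :=
  unit ((2 + (k : ℂ) * Complex.I) * (z : ℂ) + (k : ℂ) * Complex.I) ^ 2 * z⁻¹

/-- the coordinate `tan (θ / 2)` on `Circle \ {-1}`. -/
noncomputable def rc (z : Circle) : ℝ := (z : ℂ).im / (1 + (z : ℂ).re)

/-! ## 3. The skew map -/

/-- base map at `b = β(z')`. -/
noncomputable def base (φ : Circle → ℝ) (b : ℝ) (p : Torus2) : Torus2 :=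
  (p.2, p.1⁻¹ * e (16 * b * φ p.2))

/-- inverse of the base map. -/
noncomputable def baseInv (φ : Circle → ℝ) (b : ℝ) (p : Torus2) : Torus2 :=
  (p.2⁻¹ * e (16 * b * φ p.1), p.1)

/-- The map of the 3-torus. -/
noncomputable def F (φ β : Circle → ℝ) (κ : Torus2 → ℝ) (x : Torus3) : Torus3 :=
  (base φ (β (T (κ x.1) (R x.2))) x.1, T (κ x.1) (R x.2))

/-- Its inverse. -/
noncomputable def Finv (φ β : Circle → ℝ) (κ : Torus2 → ℝ) (x : Torus3) : Torus3 :=
  (baseInv φ (β x.2) x.1, Rinv (T (-(κ (baseInv φ (β x.2) x.1))) x.2))

/-! ## 4. Symbolic dynamics -/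

/-- two-sided binary sequences -/
abbrev Seq := ℤ → Bool

/-- the shift -/
def sh (c : Seq) : Seq := fun n => c (n + 1)

/-- the inverse shift -/
def shInv (c : Seq) : Seq := fun n => c (n - 1)

/-- words of level `k`: level `0` consists of all words of length `4`, level `k + 1` of all
concatenations of all words of level `k`, each used exactly once, in any order. -/
noncomputable def words : ℕ → Finset (List Bool)
  | 0 => (Finset.univ : Finset (Fin 4 → Bool)).image List.ofFn
  | k + 1 => ((words k).toList.permutations.map List.flatten).toFinset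

/-- length of the words of level `k`. -/
noncomputable def len : ℕ → ℕ
  | 0 => 4
  | k + 1 => len k * (words k).card

/-- the word `c_a c_{a+1} ... c_{a+n-1}`. -/
def block (c : Seq) (a : ℤ) (n : ℕ) : List Bool := List.ofFn (fun i : Fin n => c (a + (i : ℤ)))

/-- `c` is cut by `o + ℤ len k` into words of level `k`. -/
def IsCut (k : ℕ) (o : ℤ) (c : Seq) : Prop :=
  ∀ j : ℤ, block c (o + j * len k) (len k) ∈ words k

/-- The subshift. -/
def KK : Set Seq := {c | ∀ k, ∃ o : ℤ, IsCut k o c}

end DR
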