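import Pool.Agent.MP_7f417e_an.Assembly

open scoped Manifold ContDiff ENNReal Topology
open Filter Set

namespace DR

/-- an injective continuous map of the torus into `ℝ^6` -/
noncomputable def emb (x : Torus3) : Fin 6 → ℝ :=
  ![(x.1.1 : ℂ).re, (x.1.1 : ℂ).im, (x.1.2 : ℂ).re, (x.1.2 : ℂ).im, (x.2 : ℂ).re, (x.2 : ℂ).im]

theorem continuous_emb : Continuous emb := by
  have hr : Continuous (fun z : Circle => (z : ℂ).re) :=
    Complex.continuous_re.comp Data.continuous_coe
  have hi : Continuous (fun z : Circle => (z : ℂ).im) :=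
    Complex.continuous_im.comp Data.continuous_coe
  have h11 : Continuous (fun x : Torus3 => x.1.1) := continuous_fst.comp continuous_fst
  have h12 : Continuous (fun x : Torus3 => x.1.2) := continuous_snd.comp continuous_fst
  have h2 : Continuous (fun x : Torus3 => x.2) := continuous_snd
  refine continuous_pi fun i => ?_
  fin_cases i
  · exact hr.comp h11
  · exact hi.comp h11
  · exact hr.comp h12
  · exact hi.comp h12
  · exact hr.comp h2
  · exact hi.comp h2

theorem injective_emb : Function.Injective emb := by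
  rintro ⟨⟨u, v⟩, z⟩ ⟨⟨u', v'⟩, z'⟩ h
  have h0 : (u : ℂ).re = (u' : ℂ).re := congrFun h 0
  have h1 : (u : ℂ).im = (u' : ℂ).im := congrFun h 1
  have h2 : (v : ℂ).re = (v' : ℂ).re := congrFun h 2
  have h3 : (v : ℂ).im = (v' : ℂ).im := congrFun h 3
  have h4 : (z : ℂ).re = (z' : ℂ).re := congrFun h 4
  have h5 : (z : ℂ).im = (z' : ℂ).im := congrFun h 5
  have hu : u = u' := Circle.ext (Complex.ext h0 h1)
  have hv : v = v' := Circle.ext (Complex.ext h2 h3)
  have hz : z = z' := Circle.ext (Complex.ext h4 h5)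
  rw [hu, hv, hz]

theorem eta_lt_top_torus (f : Torus3 → Torus3) (x : Torus3)
    (h : ∀ φ : Torus3 → ℝ, Continuous φ → ∃ l : ℝ,
      Tendsto (fun n : ℕ => (∑ j ∈ Finset.range n, φ (f^[j] x)) / (n : ℝ)) atTop (𝓝 l))
    (m : MetricSpace Torus3)
    (hm : m.toPseudoMetricSpace.toUniformSpace.toTopologicalSpace =
      (inferInstance : TopologicalSpace Torus3)) :
    @eta Torus3 m f x univ < ⊤ := by
  have hcomp : @CompactSpace Torus3
      m.toPseudoMetricSpace.toUniformSpace.toTopologicalSpace := by
    rw [hm]; infer_instance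
  have hE : @Continuous Torus3 (Fin 6 → ℝ)
      m.toPseudoMetricSpace.toUniformSpace.toTopologicalSpace _ emb := by
    rw [hm]; exact continuous_emb
  refine @eta_lt_top_of_birkhoff Torus3 m hcomp 6 emb hE injective_emb f x ?_
  intro φ hφ
  apply h
  rw [hm] at hφ
  exact hφ

theorem main : ∃ f : Torus3 ≃ₘ⟮I3, I3⟯ Torus3,
    (∀ m : MetricSpace Torus3,
      m.toPseudoMetricSpace.toUniformSpace.toTopologicalSpace =
        (inferInstance : TopologicalSpace Torus3) →
      ∀ x : Torus3, @eta Torus3 m f x univ < ⊤) ∧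
    0 < Dynamics.coverEntropy f (univ : Set Torus3) ∧
    (∀ ψ : Torus3 → ℝ, Continuous ψ → ∀ x : Torus3, ∃ l : ℝ,
      Tendsto (fun n : ℕ => (∑ j ∈ Finset.range n, ψ (f^[j] x)) / (n : ℝ)) atTop (𝓝 l)) := by
  obtain ⟨D⟩ := exists_data
  refine ⟨D.f, ?_, D.entropy_pos, ?_⟩
  · intro m hm x
    exact eta_lt_top_torus D.f x (fun φ hφ => D.birkhoff φ hφ x) m hm
  · intro ψ hψ x
    exact D.birkhoff ψ hψ x

theorem entropy_metric (f : Torus3 → Torus3) (h : 0 < Dynamics.coverEntropy f (univ : Set Torus3))
    (m : MetricSpace Torus3)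
    (hm : m.toPseudoMetricSpace.toUniformSpace.toTopologicalSpace =
      (inferInstance : TopologicalSpace Torus3)) :
    0 < @Dynamics.coverEntropy Torus3 m.toPseudoMetricSpace.toUniformSpace f univ := by
  have hu : m.toPseudoMetricSpace.toUniformSpace = (inferInstance : UniformSpace Torus3) :=
    @unique_uniformity_of_compact Torus3 (inferInstance : TopologicalSpace Torus3)
      (inferInstance : CompactSpace Torus3) _ _ hm rfl
  rw [hu]
  exact h

theorem connected_circle : ConnectedSpace Circle := by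
  have hs : Function.Surjective Circle.exp := by
    intro z
    exact ⟨Complex.arg z, Circle.exp_arg z⟩
  exact hs.connectedSpace Circle.exp.continuous

/-- the model vector space of the 3-torus -/
abbrev V3 := (EuclideanSpace ℝ (Fin 1) × EuclideanSpace ℝ (Fin 1)) × EuclideanSpace ℝ (Fin 1)

theorem finrank_V3 : Module.finrank ℝ V3 = 3 := by
  simp [V3, Module.finrank_prod]

end DR
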